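import Mathlib

set_option autoImplicit false

namespace Pool.Agent.H.MP_78211a_gt

open Set Filter Topology Real

theorem incr_le {f f' g g' : ℝ → ℝ} (hf : ∀ t, HasDerivAt f (f' t) t)
    (hg : ∀ t, HasDerivAt g (g' t) t) {a b K : ℝ} (hab : a ≤ b)
    (h : ∀ t ∈ Icc a b, |f' t| ≤ K * g' t) : |f b - f a| ≤ K * (g b - g a) := by
  have := image_norm_le_of_norm_deriv_right_le_deriv_boundary (f := fun t => f t - f a) (f' := f')
    (a := a) (b := b) (fun t _ => ((hf t).sub_const _).continuousAt.continuousWithinAt)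
    (fun t _ => ((hf t).sub_const _).hasDerivWithinAt) (B := fun t => K * (g t - g a))
    (B' := fun t => K * g' t) (by simp) (fun t => ((hg t).sub_const _).const_mul K)
    (fun t ht => h t ⟨ht.1, ht.2.le⟩) ⟨hab, le_rfl⟩
  exact this

section ode
variable {x y lam mu La Mu : ℝ → ℝ} (cl : Continuous lam) (cm : Continuous mu)
  (l0 : ∀ t, 0 < lam t) (m0 : ∀ t, 0 < mu t) (hLa : ∀ t, HasDerivAt La (lam t) t)
  (hMu : ∀ t, HasDerivAt Mu (mu t) t) (hx : ∀ t, HasDerivAt x (-2 * lam t * y t) t)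
  (hy : ∀ t, HasDerivAt y (2 * mu t * x t) t) (ax : ∀ t, x (t + π) = -x t)
  (ay : ∀ t, y (t + π) = -y t)

include cl cm hx hy ax ay in
theorem uniq {t0 : ℝ} (h1 : x t0 = 0) (h2 : y t0 = 0) (t : ℝ) : x t = 0 := by
  obtain ⟨K, hK⟩ := (isCompact_Icc (a := t0) (b := t0 + π)).bddAbove_image
    (f := fun t => |lam t| + |mu t|) (by fun_prop)
  have z := eq_zero_of_abs_deriv_le_mul_abs_self_of_eq_zero_right (f := fun t => (x t, y t))
    (f' := fun t => (-2 * lam t * y t, 2 * mu t * x t)) (K := 2 * K) (a := t0) (b := t0 + π)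
    (fun t _ => ((hx t).prodMk (hy t)).continuousAt.continuousWithinAt)
    (fun t _ => ((hx t).prodMk (hy t)).hasDerivWithinAt) (by simp [h1, h2]) (fun t ht => by
      have k : |lam t| + |mu t| ≤ K := hK ⟨t, ⟨ht.1, ht.2.le⟩, rfl⟩
      have a1 : |x t| ≤ ‖(x t, y t)‖ := norm_fst_le (x t, y t)
      have a2 : |y t| ≤ ‖(x t, y t)‖ := norm_snd_le (x t, y t)
      have b1 := abs_nonneg (lam t)
      have b2 := abs_nonneg (mu t)
      have b3 := abs_nonneg (x t)
      have b4 := abs_nonneg (y t)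
      rw [Prod.norm_def]
      refine max_le ?_ ?_ <;> simp only [norm_eq_abs, abs_mul, abs_neg, abs_two] <;> nlinarith)
  have p : Function.Periodic (fun t => |x t|) π := fun t => by simp [ax]
  obtain ⟨s, hs, e⟩ := p.exists_mem_Ico pi_pos t t0
  have := congrArg Prod.fst (z s ⟨hs.1, hs.2.le⟩)
  simp only [Prod.fst_zero] at this
  simpa [this] using e

include l0 m0 hLa hMu hx hy in
theorem gap (nz : ∀ t, y t = 0 → x t ≠ 0) {a b : ℝ} (hab : a < b) (ha : y a = 0) (hb : y b = 0) :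
    2 ≤ La b + Mu b - (La a + Mu a) := by
  have cy : Continuous y := continuous_iff_continuousAt.2 fun t => (hy t).continuousAt
  have mL : Monotone La := monotone_of_hasDerivAt_nonneg hLa fun t => (l0 t).le
  have mM : Monotone Mu := monotone_of_hasDerivAt_nonneg hMu fun t => (m0 t).le
  obtain ⟨m, hm, mx⟩ := (isCompact_Icc (a := a) (b := b)).exists_isMaxOn (nonempty_Icc.2 hab.le)
    (f := fun t => y t ^ 2) (by fun_prop)
  have bd : ∀ t ∈ Icc a b, |y t| ≤ |y m| := fun t ht => sq_le_sq.1 (mx ht)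
  have A0 : 0 < |y m| := by
    by_contra hn
    have z : ∀ t ∈ Icc a b, y t = 0 := fun t ht =>
      abs_nonpos_iff.1 ((bd t ht).trans (not_lt.1 hn))
    have hc : (a + b) / 2 ∈ Ioo a b := ⟨by linarith, by linarith⟩
    have e : y =ᶠ[𝓝 ((a + b) / 2)] fun _ => 0 := by
      filter_upwards [Ioo_mem_nhds hc.1 hc.2] with t ht using z t ⟨ht.1.le, ht.2.le⟩
    have := (hy _).unique ((hasDerivAt_const _ (0:ℝ)).congr_of_eventuallyEq e)
    have := m0 ((a + b) / 2)
    apply nz _ (z _ ⟨hc.1.le, hc.2.le⟩)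
    nlinarith [mul_eq_zero.1 (show mu ((a + b) / 2) * x ((a + b) / 2) = 0 by linarith)]
  have ma : a < m := lt_of_le_of_ne hm.1 fun e => by rw [← e, ha] at A0; simp at A0
  have mb : m < b := lt_of_le_of_ne hm.2 fun e => by rw [e, hb] at A0; simp at A0
  have xm : x m = 0 := by
    have := (mx.isLocalMax (Icc_mem_nhds ma mb)).hasDerivAt_eq_zero ((hy m).pow 2)
    have h1 := m0 m
    have h2 := abs_pos.1 A0
    simpa [h1.ne', h2] using this
  have key : ∀ p q, p ∈ Icc a b → q ∈ Icc a b → p ≤ q → (x p = 0 ∨ x q = 0) →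
      |y q - y p| = |y m| → 1 ≤ La q + Mu q - (La p + Mu p) := by
    intro p q hp hq hpq hx0 e
    have sub : ∀ t ∈ Icc p q, t ∈ Icc a b := fun t ht => ⟨hp.1.trans ht.1, ht.2.trans hq.2⟩
    have dx : ∀ s t, p ≤ s → s ≤ t → t ≤ q → |x t - x s| ≤ 2 * |y m| * (La q - La p) := by
      intro s t h1 h2 h3
      refine (incr_le hx hLa h2 (K := 2 * |y m|) fun r hr => ?_).trans ?_
      · have := bd r (sub r ⟨h1.trans hr.1, hr.2.trans h3⟩)
        rw [abs_mul, abs_mul, abs_neg, abs_two, abs_of_pos (l0 r)]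
        nlinarith [l0 r]
      · have := mL h1
        have := mL h3
        nlinarith
    have bx : ∀ t ∈ Icc p q, |x t| ≤ 2 * |y m| * (La q - La p) := by
      intro t ht
      rcases hx0 with e0 | e0
      · simpa [e0] using dx p t le_rfl ht.1 ht.2
      · simpa [e0] using dx t q ht.1 ht.2 le_rfl
    have := incr_le hy hMu hpq (K := 2 * (2 * |y m| * (La q - La p))) fun r hr => by
      rw [abs_mul, abs_mul, abs_two, abs_of_pos (m0 r)]
      nlinarith [m0 r, bx r hr]
    rw [e] at this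
    have h1 : 1 ≤ 4 * (La q - La p) * (Mu q - Mu p) := by
      by_contra hn
      push Not at hn
      nlinarith
    have h2 := mL hpq
    have h3 := mM hpq
    nlinarith [sq_nonneg ((La q - La p) - (Mu q - Mu p))]
  have k1 := key a m ⟨le_rfl, hab.le⟩ hm hm.1 (Or.inr xm) (by simp [ha])
  have k2 := key m b hm ⟨hab.le, le_rfl⟩ hm.2 (Or.inl xm) (by simp [hb])
  linarith

end ode

theorem const_sign {f : ℝ → ℝ} (cf : Continuous f)
    (h : ∀ t0, (∀ᶠ t in 𝓝[≠] t0, 0 < f t) ∨ (∀ᶠ t in 𝓝[≠] t0, f t < 0)) :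
    (∀ t, 0 ≤ f t) ∨ (∀ t, f t ≤ 0) := by
  have op : ∀ g : ℝ → ℝ, Continuous g → IsOpen {t0 | ∀ᶠ t in 𝓝[≠] t0, 0 < g t} := by
    intro g cg
    rw [isOpen_iff_mem_nhds]
    intro t0 h0
    have h1 : ∀ᶠ t in 𝓝 t0, t ≠ t0 → 0 < g t := eventually_nhdsWithin_iff.1 h0
    filter_upwards [h1] with t ht
    by_cases e : t = t0
    · rw [e]; exact h0
    · exact nhdsWithin_le_nhds (cg.continuousAt.eventually (lt_mem_nhds (ht e)))
  have cl : ∀ g : ℝ → ℝ, Continuous g → ∀ t0, (∀ᶠ t in 𝓝[≠] t0, 0 < g t) → 0 ≤ g t0 :=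
    fun g cg t0 h0 => ge_of_tendsto (cg.continuousAt.tendsto.mono_left nhdsWithin_le_nhds)
      (h0.mono fun t ht => ht.le)
  have := isPreconnected_univ.subset_or_subset (op f cf) (op (fun t => -f t) cf.neg) (by
    rw [disjoint_left]
    intro t0 h1 h2
    have g1 : ∀ᶠ t in 𝓝[≠] t0, 0 < f t := h1
    have g2 : ∀ᶠ t in 𝓝[≠] t0, 0 < -f t := h2
    obtain ⟨t, a, b⟩ := (g1.and g2).exists
    linarith) (fun t0 _ => (h t0).imp id fun a => a.mono fun t ht => by simpa using ht)
  rcases this with a | a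
  · exact Or.inl fun t => cl f cf t (a trivial)
  · exact Or.inr fun t => by simpa using cl _ cf.neg t (a trivial)

theorem loc_sign {y D : ℝ → ℝ} {t0 a b : ℝ} (hy : HasDerivAt y a t0) (hD : HasDerivAt D b t0)
    (h : (y t0 ≠ 0 ∧ D t0 ≠ 0) ∨ (y t0 = 0 ∧ D t0 = 0 ∧ a ≠ 0 ∧ b ≠ 0)) :
    (∀ᶠ t in 𝓝[≠] t0, 0 < y t * D t) ∨ (∀ᶠ t in 𝓝[≠] t0, y t * D t < 0) := by
  rcases h with ⟨h1, h2⟩ | ⟨h1, h2, h3, h4⟩
  · have c := (hy.continuousAt.mul hD.continuousAt).tendsto.mono_left
      (nhdsWithin_le_nhds (s := {t0}ᶜ))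
    rcases (mul_ne_zero h1 h2).lt_or_gt with e | e
    · exact Or.inr (c.eventually (gt_mem_nhds e))
    · exact Or.inl (c.eventually (lt_mem_nhds e))
  · have c := (hasDerivAt_iff_tendsto_slope.1 hy).mul (hasDerivAt_iff_tendsto_slope.1 hD)
    have e : ∀ t, t ≠ t0 → y t * D t = (t - t0) ^ 2 * (slope y t0 t * slope D t0 t) := by
      intro t ht
      have := sub_ne_zero.2 ht
      simp only [slope_def_field, h1, h2]
      field_simp
      ring
    rcases (mul_ne_zero h3 h4).lt_or_gt with g | g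
    · right
      filter_upwards [c.eventually (gt_mem_nhds g), self_mem_nhdsWithin] with t a1 a2
      rw [e t a2]
      exact mul_neg_of_pos_of_neg (sq_pos_of_ne_zero (sub_ne_zero.2 a2)) a1
    · left
      filter_upwards [c.eventually (lt_mem_nhds g), self_mem_nhdsWithin] with t a1 a2
      rw [e t a2]
      exact mul_pos (sq_pos_of_ne_zero (sub_ne_zero.2 a2)) a1

theorem signs {y y' S : ℝ → ℝ} (hy : ∀ t, HasDerivAt y (y' t) t) (ay : ∀ t, y (t + π) = -y t)
    (simple : ∀ t, y t = 0 → y' t ≠ 0)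
    (hgap : ∀ a b, a < b → y a = 0 → y b = 0 → 2 ≤ S b - S a) (mS : Monotone S)
    (tot : ∀ t, S (t + π) - S t ≤ 8) :
    ∃ Z : Finset ℝ, (Z.card = 1 ∨ Z.card = 3) ∧
      ((∀ t, 0 ≤ y t * ∏ z ∈ Z, sin (t - z)) ∨ (∀ t, y t * ∏ z ∈ Z, sin (t - z) ≤ 0)) ∧
      ∃ t, y t * ∏ z ∈ Z, sin (t - z) ≠ 0 := by
  classical
  have cy : Continuous y := continuous_iff_continuousAt.2 fun t => (hy t).continuousAt
  obtain ⟨s, hs⟩ : ∃ s, y s = 0 := by
    have h1 : (0:ℝ) ∈ uIcc (y 0) (y (0 + π)) := by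
      rw [ay]
      rcases le_total 0 (y 0) with a | a
      · exact mem_uIcc.2 (Or.inr ⟨by linarith, a⟩)
      · exact mem_uIcc.2 (Or.inl ⟨a, by linarith⟩)
    obtain ⟨s, -, e⟩ := intermediate_value_uIcc cy.continuousOn h1
    exact ⟨s, e⟩
  let Zs : Set ℝ := {t | t ∈ Ico s (s + π) ∧ y t = 0}
  let φ : ℝ → ℕ := fun t => ⌊(S t - S s) / 2⌋₊
  have mp : MapsTo φ Zs (Finset.range 4 : Finset ℕ) := by
    intro t ht
    have := hgap t (s + π) ht.1.2 ht.2 (by rw [ay, hs, neg_zero])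
    have := tot s
    have := mS ht.1.1
    simp only [Finset.coe_range, mem_Iio, φ]
    rw [Nat.floor_lt (by linarith)]
    push_cast; linarith
  have lt : ∀ a ∈ Zs, ∀ b ∈ Zs, a < b → φ a < φ b := by
    intro a ha b hb hab
    have := hgap a b hab ha.2 hb.2
    have h0 := mS ha.1.1
    have : (S a - S s) / 2 + 1 ≤ (S b - S s) / 2 := by linarith
    have := Nat.floor_mono this
    rw [Nat.floor_add_one (by linarith)] at this
    exact this
  have inj : InjOn φ Zs := fun a ha b hb e => by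
    rcases lt_trichotomy a b with h | h | h
    · exact absurd e (lt a ha b hb h).ne
    · exact h
    · exact absurd e (lt b hb a ha h).ne'
  have fin : Zs.Finite := Finite.of_injOn mp inj (Finset.finite_toSet _)
  set Z := fin.toFinset with hZ
  have mem : ∀ z, z ∈ Z ↔ z ∈ Ico s (s + π) ∧ y z = 0 := fun z => fin.mem_toFinset
  have card : Z.card ≤ 4 := by
    have := Finset.card_le_card_of_injOn (s := Z) (t := Finset.range 4) φ
      (by simpa [hZ] using mp) (by simpa [hZ] using inj)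
    simpa using this
  have py : Function.Periodic (fun t => |y t|) π := fun t => by simp [ay]
  have zs : ∀ t z, y z = 0 → sin (t - z) = 0 → y t = 0 := by
    intro t z hz e
    obtain ⟨n, hn⟩ := sin_eq_zero_iff.1 e
    have := py.int_mul n z
    rw [hn] at this
    simpa [hz] using this
  have cD : ∀ W : Finset ℝ, Differentiable ℝ fun t => ∏ z ∈ W, sin (t - z) := fun W => by
    fun_prop
  have loc : ∀ t0, (∀ᶠ t in 𝓝[≠] t0, 0 < y t * ∏ z ∈ Z, sin (t - z)) ∨
      (∀ᶠ t in 𝓝[≠] t0, y t * ∏ z ∈ Z, sin (t - z) < 0) := by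
    intro t0
    by_cases h0 : y t0 = 0
    · obtain ⟨n, hn⟩ : ∃ n : ℤ, t0 - n • π ∈ Ico s (s + π) :=
        ⟨_, sub_toIcoDiv_zsmul_mem_Ico pi_pos s t0⟩
      have z0 : t0 - n • π ∈ Z := by
        refine (mem _).2 ⟨hn, ?_⟩
        have := py.sub_zsmul_eq (x := t0) n
        simpa [h0] using this
      have s0 : sin (t0 - (t0 - n • π)) = 0 := by simp
      have c0 : cos (t0 - (t0 - n • π)) ≠ 0 := by
        intro e
        have := sin_sq_add_cos_sq (t0 - (t0 - n • π))
        rw [s0, e] at this; simp at this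
      have oth : ∏ z ∈ Z.erase (t0 - n • π), sin (t0 - z) ≠ 0 := by
        refine Finset.prod_ne_zero_iff.2 fun z hz e => ?_
        obtain ⟨h1, h2⟩ := Finset.mem_erase.1 hz
        have h3 := ((mem z).1 h2).1
        have : sin (t0 - n • π - z) = 0 := by
          rw [show t0 - n • π - z = (t0 - z) - n * π by simp; ring, sin_sub_int_mul_pi, e, mul_zero]
        rw [sin_eq_zero_iff_of_lt_of_lt (by linarith [hn.1, h3.2]) (by linarith [hn.2, h3.1])]
          at this
        exact h1 (by linarith)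
      have d1 : HasDerivAt (fun t => sin (t - (t0 - n • π))) (cos (t0 - (t0 - n • π))) t0 := by
        simpa using ((hasDerivAt_id t0).sub_const (t0 - n • π)).sin
      have d2 := d1.mul (cD (Z.erase (t0 - n • π)) t0).hasDerivAt
      have e : (fun t => ∏ z ∈ Z, sin (t - z)) = (fun t => sin (t - (t0 - n • π))) *
          fun t => ∏ z ∈ Z.erase (t0 - n • π), sin (t - z) := by
        funext t
        exact (Finset.mul_prod_erase Z (fun z => sin (t - z)) z0).symm
      rw [← e, s0, zero_mul, add_zero] at d2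
      refine loc_sign (hy t0) d2 (Or.inr ⟨h0, ?_, simple t0 h0, mul_ne_zero c0 oth⟩)
      exact Finset.prod_eq_zero z0 s0
    · refine loc_sign (hy t0) (cD Z t0).hasDerivAt (Or.inl ⟨h0, ?_⟩)
      exact Finset.prod_ne_zero_iff.2 fun z hz e => h0 (zs t0 z ((mem z).1 hz).2 e)
  have cs := const_sign (cy.mul (cD Z).continuous) loc
  obtain ⟨t, ht⟩ : ∃ t, y t * ∏ z ∈ Z, sin (t - z) ≠ 0 := by
    rcases loc 0 with a | a
    · exact ⟨_, a.exists.choose_spec.ne'⟩
    · exact ⟨_, a.exists.choose_spec.ne⟩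
  refine ⟨Z, ?_, cs, t, ht⟩
  have odd : ¬ Even Z.card := by
    intro ev
    have e : y (t + π) * ∏ z ∈ Z, sin (t + π - z) = -(y t * ∏ z ∈ Z, sin (t - z)) := by
      have : ∀ z, sin (t + π - z) = (-1) * sin (t - z) := fun z => by
        rw [show t + π - z = (t - z) + π by ring, sin_add_pi]; ring
      simp only [this, Finset.prod_mul_distrib, Finset.prod_const, ev.neg_one_pow, ay]
      ring
    rcases cs with a | a
    · have h1 := a t
      have h2 := a (t + π)
      simp only [Pi.mul_apply] at h1 h2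
      rw [e] at h2
      exact ht (by linarith)
    · have h1 := a t
      have h2 := a (t + π)
      simp only [Pi.mul_apply] at h1 h2
      rw [e] at h2
      exact ht (by linarith)
  rw [Nat.not_even_iff] at odd
  omega

def det (a b : ℝ × ℝ) : ℝ := a.1 * b.2 - a.2 * b.1

noncomputable def ee (t : ℝ) : ℝ × ℝ := (cos t, sin t)

theorem det_ee (s t : ℝ) : det (ee s) (ee t) = sin (t - s) := by
  simp only [det, ee, sin_sub]; ring

theorem det_deriv {v : ℝ → ℝ × ℝ} {v' : ℝ × ℝ} {t : ℝ} (h : HasDerivAt v v' t) (a : ℝ × ℝ) :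
    HasDerivAt (fun t => det a (v t)) (det a v') t := by
  have h1 : HasDerivAt (fun t => (v t).1) v'.1 t :=
    (ContinuousLinearMap.fst ℝ ℝ ℝ).hasFDerivAt.comp_hasDerivAt t h
  have h2 : HasDerivAt (fun t => (v t).2) v'.2 t :=
    (ContinuousLinearMap.snd ℝ ℝ ℝ).hasFDerivAt.comp_hasDerivAt t h
  exact (h2.const_mul a.1).sub (h1.const_mul a.2)

theorem fiber_ode {x y lam mu La Mu r : ℝ → ℝ} {v w : ℝ → ℝ × ℝ} (cl : Continuous lam)
    (cm : Continuous mu) (l0 : ∀ t, 0 < lam t) (m0 : ∀ t, 0 < mu t)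
    (hLa : ∀ t, HasDerivAt La (lam t) t) (hMu : ∀ t, HasDerivAt Mu (mu t) t)
    (hx : ∀ t, HasDerivAt x (-2 * lam t * y t) t) (hy : ∀ t, HasDerivAt y (2 * mu t * x t) t)
    (ax : ∀ t, x (t + π) = -x t) (ay : ∀ t, y (t + π) = -y t)
    (tot : ∀ t, La (t + π) + Mu (t + π) - (La t + Mu t) ≤ 8)
    (hv : ∀ t, HasDerivAt v (lam t • w t) t) (hw : ∀ t, HasDerivAt w (-(mu t) • v t) t)
    (av : ∀ t, v (t + π) = -v t) (aw : ∀ t, w (t + π) = -w t)
    (r0 : ∀ t, 0 < r t) (hr : ∀ t, v t = r t • ee t)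
    (sw : ∀ t, ∃ t', v t' = w t ∧ y t' = -x t) (t : ℝ) : x t = 0 := by
  by_contra hne
  have nz : ∀ s, y s = 0 → x s ≠ 0 := fun s a b => hne (uniq cl cm hx hy ax ay b a t)
  have mS : Monotone fun t => La t + Mu t :=
    monotone_of_hasDerivAt_nonneg (fun t => (hLa t).add (hMu t)) fun t => (add_pos (l0 t) (m0 t)).le
  obtain ⟨Z, hc, hs, t1, h1⟩ := signs hy ay
    (fun s a => mul_ne_zero (mul_ne_zero two_ne_zero (m0 s).ne') (nz s a))
    (S := fun t => La t + Mu t) (fun a b h1 h2 h3 => gap l0 m0 hLa hMu hx hy nz h1 h2 h3) mS tot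
  have wr : ∀ a b c : ℝ × ℝ, ∃ W : ℝ → ℝ, (∀ t, W (t + π) = W t) ∧ ∀ t, HasDerivAt W
      (3 * (lam t * x t * (det a (w t) * det b (w t) * det c (w t)) -
        mu t * y t * (det a (v t) * det b (v t) * det c (v t)))) t := by
    intro a b c
    refine ⟨fun t => x t * (det a (v t) * det b (w t) * det c (w t) +
      det a (w t) * det b (v t) * det c (w t) + det a (w t) * det b (w t) * det c (v t)) +
      y t * (det a (w t) * det b (v t) * det c (v t) + det a (v t) * det b (w t) * det c (v t) +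
      det a (v t) * det b (v t) * det c (w t)), fun t => ?_, fun t => ?_⟩
    · simp only [ax, ay, av, aw, det, Prod.fst_neg, Prod.snd_neg]; ring
    · have a1 := det_deriv (hv t) a
      have a2 := det_deriv (hv t) b
      have a3 := det_deriv (hv t) c
      have b1 := det_deriv (hw t) a
      have b2 := det_deriv (hw t) b
      have b3 := det_deriv (hw t) c
      refine (((hx t).mul ((((a1.mul b2).mul b3).add ((b1.mul a2).mul b3)).add
        ((b1.mul b2).mul a3))).add ((hy t).mul ((((b1.mul a2).mul a3).add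
        ((a1.mul b2).mul a3)).add ((a1.mul a2).mul b3)))).congr_deriv ?_
      simp only [det, Pi.mul_apply, Pi.add_apply, Prod.smul_fst, Prod.smul_snd, smul_eq_mul]
      ring
  obtain ⟨C, W, pW, dW, hC⟩ : ∃ (C : ℝ × ℝ → ℝ) (W : ℝ → ℝ), (∀ t, W (t + π) = W t) ∧
      (∀ t, HasDerivAt W (3 * (lam t * x t * C (w t) - mu t * y t * C (v t))) t) ∧
      ∀ t, C (v t) = r t ^ 3 * ∏ z ∈ Z, sin (t - z) := by
    rcases hc with e | e
    · obtain ⟨z, rfl⟩ := Finset.card_eq_one.1 e
      obtain ⟨W1, p1, d1⟩ := wr (ee z) (1, 0) (1, 0)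
      obtain ⟨W2, p2, d2⟩ := wr (ee z) (0, 1) (0, 1)
      refine ⟨fun u => det (ee z) u * det (1, 0) u * det (1, 0) u +
        det (ee z) u * det (0, 1) u * det (0, 1) u, fun t => W1 t + W2 t,
        fun t => by simp only [p1, p2], fun t => ((d1 t).add (d2 t)).congr_deriv (by ring),
        fun t => ?_⟩
      rw [Finset.prod_singleton, ← det_ee, hr]
      have := sin_sq_add_cos_sq t
      simp only [det, ee, Prod.smul_fst, Prod.smul_snd, smul_eq_mul]
      linear_combination (r t ^ 3 * (cos z * sin t - sin z * cos t)) * this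
    · obtain ⟨a, b, c, g1, g2, h3, rfl⟩ := Finset.card_eq_three.1 e
      obtain ⟨W1, p1, d1⟩ := wr (ee a) (ee b) (ee c)
      refine ⟨fun u => det (ee a) u * det (ee b) u * det (ee c) u, W1, p1, d1, fun t => ?_⟩
      rw [Finset.prod_insert (by simp [g1, g2]), Finset.prod_pair h3, ← det_ee, ← det_ee,
        ← det_ee, hr]
      simp only [det, Prod.smul_fst, Prod.smul_snd, smul_eq_mul]
      ring
  obtain ⟨ε, ε0, hε⟩ : ∃ ε : ℝ, ε ≠ 0 ∧ ∀ t, 0 ≤ ε * (y t * C (v t)) := by
    rcases hs with a | a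
    · refine ⟨1, one_ne_zero, fun t => ?_⟩
      have := mul_nonneg (pow_pos (r0 t) 3).le (a t)
      rw [hC]; linarith
    · refine ⟨-1, by norm_num, fun t => ?_⟩
      have := mul_nonneg (pow_pos (r0 t) 3).le (neg_nonneg.2 (a t))
      rw [hC]; linarith
  have n1 : ∀ t, ε * (lam t * x t * C (w t)) ≤ 0 := fun t => by
    obtain ⟨t', e1, e2⟩ := sw t
    have := mul_nonneg (l0 t).le (hε t')
    rw [e1, e2] at this
    linarith
  have an : Antitone fun t => ε * W t := antitone_of_hasDerivAt_nonpos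
    (fun t => (dW t).const_mul ε) fun t => by
      have := mul_nonneg (m0 t).le (hε t)
      have := n1 t
      simp only [Pi.zero_apply]
      nlinarith
  have e : (fun t => ε * W t) =ᶠ[𝓝 t1] fun _ => ε * W t1 := by
    filter_upwards [Ioo_mem_nhds (show t1 - π < t1 by linarith [pi_pos])
      (show t1 < t1 + π by linarith [pi_pos])] with s hs
    have a1 := an hs.1.le
    have a2 := an hs.2.le
    have a3 := pW (t1 - π)
    have a4 := pW t1
    rw [sub_add_cancel] at a3
    simp only [a4, ← a3] at a1 a2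
    linarith
  have z := ((dW t1).const_mul ε).unique ((hasDerivAt_const _ _).congr_of_eventuallyEq e)
  have p : 0 < ε * (y t1 * C (v t1)) := lt_of_le_of_ne (hε t1) (by
    rw [hC, mul_left_comm (y t1)]
    exact (mul_ne_zero ε0 (mul_ne_zero (pow_pos (r0 t1) 3).ne' h1)).symm)
  have := mul_pos (m0 t1) p
  have := n1 t1
  nlinarith

end Pool.Agent.H.MP_78211a_gt
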