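import Pool.Agent.H.MP_78211a_gt.A

set_option autoImplicit false

namespace Pool.Agent.H.MP_78211a_gt

open Set Filter Topology Real

abbrev V := ℝ × ℝ

noncomputable def D1 (Φ : V × V → ℝ) (p q : V × V) : ℝ := fderiv ℝ Φ p q

noncomputable def D2 (Φ : V × V → ℝ) (p q r : V × V) : ℝ := fderiv ℝ (fderiv ℝ Φ) p q r

structure F0 (M : Set V) (Φ : V × V → ℝ) : Prop where
  op : IsOpen M
  cv : Convex ℝ M
  sm : ContDiffOn ℝ 2 Φ (M ×ˢ {0}ᶜ)
  pos : ∀ x ∈ M, ∀ v, v ≠ 0 → 0 < Φ (x, v)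
  hom : ∀ x ∈ M, ∀ (c : ℝ) v, Φ (x, c • v) = |c| * Φ (x, v)
  tri : ∀ x ∈ M, ∀ u v, Φ (x, u + v) ≤ Φ (x, u) + Φ (x, v)

structure FS (M : Set V) (Φ : V × V → ℝ) : Prop extends F0 M Φ where
  el : ∀ x ∈ M, ∀ v, v ≠ 0 → ∀ h, D2 Φ (x, v) (v, 0) (0, h) = D1 Φ (x, v) (h, 0)
  sy : ∀ x ∈ M, ∀ v, v ≠ 0 → ∀ w, w ≠ 0 → D1 Φ (x, v) (0, w) = 0 → D1 Φ (x, w) (0, v) = 0

variable {M : Set V} {Φ : V × V → ℝ}

theorem F0.opn (h : F0 M Φ) : IsOpen (M ×ˢ ({0}ᶜ : Set V)) := h.op.prod isOpen_compl_singleton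

theorem F0.cAt (h : F0 M Φ) {x v : V} (hx : x ∈ M) (hv : v ≠ 0) : ContDiffAt ℝ 2 Φ (x, v) :=
  h.sm.contDiffAt (h.opn.mem_nhds ⟨hx, hv⟩)

theorem F0.dAt (h : F0 M Φ) {x v : V} (hx : x ∈ M) (hv : v ≠ 0) : DifferentiableAt ℝ Φ (x, v) :=
  (h.cAt hx hv).differentiableAt (by norm_num)

theorem F0.dAt2 (h : F0 M Φ) {x v : V} (hx : x ∈ M) (hv : v ≠ 0) :
    DifferentiableAt ℝ (fderiv ℝ Φ) (x, v) :=
  ((h.cAt hx hv).fderiv_right (m := 1) (by norm_num)).differentiableAt (by norm_num)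

theorem F0.sym (h : F0 M Φ) {x v : V} (hx : x ∈ M) (hv : v ≠ 0) (q r : V × V) :
    D2 Φ (x, v) q r = D2 Φ (x, v) r q :=
  ((h.cAt hx hv).isSymmSndFDerivAt (by simp)).eq q r

theorem F0.cont2 (h : F0 M Φ) : ContinuousOn (fderiv ℝ (fderiv ℝ Φ)) (M ×ˢ {0}ᶜ) :=
  (h.sm.fderiv_of_isOpen h.opn (m := 1) (by norm_num)).continuousOn_fderiv_of_isOpen h.opn le_rfl

theorem F0.cont1 (h : F0 M Φ) : ContinuousOn (fderiv ℝ Φ) (M ×ˢ {0}ᶜ) :=
  h.sm.continuousOn_fderiv_of_isOpen h.opn (by norm_num)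

theorem F0.crv (h : F0 M Φ) {x v : ℝ → V} {x' v' : V} {t : ℝ} (hx : x t ∈ M) (hv : v t ≠ 0)
    (dx : HasDerivAt x x' t) (dv : HasDerivAt v v' t) :
    HasDerivAt (fun s => Φ (x s, v s)) (D1 Φ (x t, v t) (x', v')) t :=
  (h.dAt hx hv).hasFDerivAt.comp_hasDerivAt t (dx.prodMk dv)

theorem F0.crv2 (h : F0 M Φ) {x v : ℝ → V} {x' v' : V} {q : ℝ → V × V} {q' : V × V} {t : ℝ}
    (hx : x t ∈ M) (hv : v t ≠ 0) (dx : HasDerivAt x x' t) (dv : HasDerivAt v v' t)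
    (dq : HasDerivAt q q' t) : HasDerivAt (fun s => D1 Φ (x s, v s) (q s))
      (D2 Φ (x t, v t) (x', v') (q t) + D1 Φ (x t, v t) q') t := by
  have a : HasDerivAt (fun s => fderiv ℝ Φ (x s, v s))
      (fderiv ℝ (fderiv ℝ Φ) (x t, v t) (x', v')) t :=
    (h.dAt2 hx hv).hasFDerivAt.comp_hasDerivAt t (dx.prodMk dv)
  exact a.clm_apply dq

theorem ln (a b : V) (t : ℝ) : HasDerivAt (fun s : ℝ => a + s • b) b t := by
  simpa using ((hasDerivAt_id t).smul_const b).const_add a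

theorem ln_ev {U : Set V} (hU : IsOpen U) {a : V} (ha : a ∈ U) (b : V) :
    ∀ᶠ s in 𝓝 (0:ℝ), a + s • b ∈ U :=
  (ln a b 0).continuousAt.eventually (hU.mem_nhds (by simpa using ha))

theorem D1_add (p q r : V × V) : D1 Φ p (q + r) = D1 Φ p q + D1 Φ p r := map_add _ _ _

theorem D1_smul (p : V × V) (c : ℝ) (q : V × V) : D1 Φ p (c • q) = c * D1 Φ p q := map_smul _ _ _

theorem D1_split (p : V × V) (a b : V) : D1 Φ p (a, b) = D1 Φ p (a, 0) + D1 Φ p (0, b) := by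
  rw [← D1_add]; simp

theorem D1_l (p : V × V) (c : ℝ) (a : V) : D1 Φ p (c • a, 0) = c * D1 Φ p (a, 0) := by
  rw [← D1_smul]; simp

theorem D1_r (p : V × V) (c : ℝ) (a : V) : D1 Φ p (0, c • a) = c * D1 Φ p (0, a) := by
  rw [← D1_smul]; simp

theorem D1_coord (p : V × V) (a : V) :
    D1 Φ p (0, a) = a.1 * D1 Φ p (0, (1, 0)) + a.2 * D1 Φ p (0, (0, 1)) := by
  rw [← D1_smul, ← D1_smul, ← D1_add]; simp

theorem D2_coord (p q : V × V) (a : V) :
    D2 Φ p q (0, a) = a.1 * D2 Φ p q (0, (1, 0)) + a.2 * D2 Φ p q (0, (0, 1)) := by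
  unfold D2
  rw [← smul_eq_mul, ← smul_eq_mul, ← map_smul, ← map_smul, ← map_add]; simp

theorem F0.homD (h : F0 M Φ) {x v : V} (hx : x ∈ M) (hv : v ≠ 0) {c : ℝ} (hc : c ≠ 0) (a b : V) :
    D1 Φ (x, c • v) (a, c • b) = |c| * D1 Φ (x, v) (a, b) := by
  have d1 := h.crv (x := fun s => x + s • a) (v := fun s => c • (v + s • b)) (t := 0)
    (by simpa using hx) (by simp [hc, hv]) (ln x a 0) ((ln v b 0).const_smul c)
  have d2 := (h.crv (x := fun s => x + s • a) (v := fun s => v + s • b) (t := 0)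
    (by simpa using hx) (by simpa using hv) (ln x a 0) (ln v b 0)).const_mul |c|
  simp only [zero_smul, add_zero] at d1 d2
  refine d1.unique (d2.congr_of_eventuallyEq ?_)
  filter_upwards [ln_ev h.op hx a] with s hs using h.hom _ hs _ _

theorem F0.homl (h : F0 M Φ) {x v : V} (hx : x ∈ M) (hv : v ≠ 0) {c : ℝ} (hc : c ≠ 0) (a : V) :
    D1 Φ (x, c • v) (a, 0) = |c| * D1 Φ (x, v) (a, 0) := by
  simpa using h.homD hx hv hc a 0

theorem F0.homr (h : F0 M Φ) {x v : V} (hx : x ∈ M) (hv : v ≠ 0) {c : ℝ} (hc : 0 < c) (b : V) :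
    D1 Φ (x, c • v) (0, b) = D1 Φ (x, v) (0, b) := by
  have := h.homD hx hv hc.ne' 0 b
  rw [D1_r, abs_of_pos hc] at this
  exact mul_left_cancel₀ hc.ne' this

theorem F0.homn (h : F0 M Φ) {x v : V} (hx : x ∈ M) (hv : v ≠ 0) (b : V) :
    D1 Φ (x, -v) (0, b) = -D1 Φ (x, v) (0, b) := by
  have := h.homD hx hv (c := -1) (by norm_num) 0 b
  rw [D1_r] at this
  simp at this
  linarith

theorem F0.neg (h : F0 M Φ) {x : V} (hx : x ∈ M) (v : V) : Φ (x, -v) = Φ (x, v) := by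
  simpa using h.hom x hx (-1) v

theorem F0.zero (h : F0 M Φ) {x : V} (hx : x ∈ M) : Φ (x, 0) = 0 := by
  simpa using h.hom x hx 0 0

theorem F0.euler (h : F0 M Φ) {x v : V} (hx : x ∈ M) (hv : v ≠ 0) :
    D1 Φ (x, v) (0, v) = Φ (x, v) := by
  have d1 := h.crv (x := fun _ => x) (v := fun s => v + s • v) (t := 0)
    hx (by simpa using hv) (hasDerivAt_const _ _) (ln v v 0)
  simp only [zero_smul, add_zero] at d1
  have d2 : HasDerivAt (fun s : ℝ => (1 + s) * Φ (x, v)) (Φ (x, v)) 0 := by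
    simpa using ((hasDerivAt_id (0:ℝ)).const_add 1).mul_const (Φ (x, v))
  refine d1.unique (d2.congr_of_eventuallyEq ?_)
  filter_upwards [Ioi_mem_nhds (show (-1:ℝ) < 0 by norm_num)] with s hs
  have : -1 < s := hs
  rw [show v + s • v = (1 + s) • v by module, h.hom x hx, abs_of_pos (by linarith)]

theorem F0.euler2 (h : F0 M Φ) {x v : V} (hx : x ∈ M) (hv : v ≠ 0) (a b : V) :
    D2 Φ (x, v) (a, b) (0, v) = D1 Φ (x, v) (a, 0) := by
  have d1 := h.crv2 (x := fun s => x + s • a) (v := fun s => v + s • b) (t := 0)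
    (by simpa using hx) (by simpa using hv) (ln x a 0) (ln v b 0)
    ((hasDerivAt_const (0:ℝ) (0:V)).prodMk (ln v b 0))
  have d2 := h.crv (x := fun s => x + s • a) (v := fun s => v + s • b) (t := 0)
    (by simpa using hx) (by simpa using hv) (ln x a 0) (ln v b 0)
  simp only [zero_smul, add_zero] at d1 d2
  have := d1.unique (d2.congr_of_eventuallyEq (by
    filter_upwards [ln_ev h.op hx a, ln_ev isOpen_compl_singleton (show v ∈ ({0}ᶜ : Set V) from hv) b]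
      with s h1 h2 using h.euler h1 h2))
  rw [D1_split _ a b] at this
  linarith

noncomputable def wt (Φ : V × V → ℝ) (p : V × V) : V := (-D1 Φ p (0, (0, 1)), D1 Φ p (0, (1, 0)))

noncomputable def wt2 (Φ : V × V → ℝ) (p q : V × V) : V :=
  (-D2 Φ p q (0, (0, 1)), D2 Φ p q (0, (1, 0)))

theorem det_wt (p : V × V) (a : V) : det a (wt Φ p) = D1 Φ p (0, a) := by
  rw [D1_coord]; simp only [det, wt]; ring

theorem det_wt2 (p q : V × V) (a : V) : det a (wt2 Φ p q) = D2 Φ p q (0, a) := by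
  rw [D2_coord]; simp only [det, wt2]; ring

theorem F0.wt_crv (h : F0 M Φ) {x v : ℝ → V} {x' v' : V} {t : ℝ} (hx : x t ∈ M) (hv : v t ≠ 0)
    (dx : HasDerivAt x x' t) (dv : HasDerivAt v v' t) :
    HasDerivAt (fun s => wt Φ (x s, v s)) (wt2 Φ (x t, v t) (x', v')) t := by
  have a := h.crv2 hx hv dx dv (hasDerivAt_const t ((0, (0, 1)) : V × V))
  have b := h.crv2 hx hv dx dv (hasDerivAt_const t ((0, (1, 0)) : V × V))
  have z : D1 Φ (x t, v t) 0 = 0 := map_zero _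
  rw [z, add_zero] at a b
  exact a.neg.prodMk b

theorem F0.wt_ne (h : F0 M Φ) {x v : V} (hx : x ∈ M) (hv : v ≠ 0) : wt Φ (x, v) ≠ 0 := by
  intro e
  have := det_wt (Φ := Φ) (x, v) v
  rw [e, h.euler hx hv] at this
  have := h.pos x hx v hv
  simp [det] at *
  linarith

theorem FS.perp (h : FS M Φ) {x v : V} (hx : x ∈ M) (hv : v ≠ 0) (a : V) :
    D1 Φ (x, wt Φ (x, v)) (0, a) = Φ (x, wt Φ (x, v)) / Φ (x, v) * det v a := by
  have n := h.wt_ne hx hv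
  have z := h.sy x hx v hv _ n (by rw [← det_wt]; simp [det]; ring)
  have e := h.euler hx n
  have d := det_wt (Φ := Φ) (x, v) v
  rw [h.euler hx hv] at d
  have p := h.pos x hx v hv
  rw [D1_coord] at z e ⊢
  rw [← d] at p ⊢
  rw [← e, div_mul_eq_mul_div, eq_div_iff p.ne']
  simp only [det]
  linear_combination (a.1 * (wt Φ (x, v)).2 - a.2 * (wt Φ (x, v)).1) * z

theorem FS.K_crv (h : FS M Φ) {x v : ℝ → V} {x' v' : V} {t : ℝ} (hx : x t ∈ M) (hv : v t ≠ 0)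
    (dx : HasDerivAt x x' t) (dv : HasDerivAt v v' t) :
    HasDerivAt (fun s => Φ (x s, wt Φ (x s, v s))) (D1 Φ (x t, wt Φ (x t, v t)) (x', 0) +
      Φ (x t, wt Φ (x t, v t)) / Φ (x t, v t) * D1 Φ (x t, v t) (x', 0)) t := by
  refine (h.crv (v := fun s => wt Φ (x s, v s)) hx (h.wt_ne hx hv) dx
    (h.wt_crv hx hv dx dv)).congr_deriv ?_
  rw [D1_split, h.perp hx hv, det_wt2, h.euler2 hx hv]

noncomputable def kap (Φ : V × V → ℝ) (x : V) : ℝ := Φ (x, wt Φ (x, (1, 0)))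

theorem ee_ne (t : ℝ) : ee t ≠ 0 := by
  intro e
  have := sin_sq_add_cos_sq t
  have h1 := congrArg Prod.fst e
  have h2 := congrArg Prod.snd e
  simp only [ee, Prod.fst_zero, Prod.snd_zero] at h1 h2
  rw [h1, h2] at this; simp at this

theorem ee_deriv (t : ℝ) : HasDerivAt ee (-sin t, cos t) t :=
  (hasDerivAt_cos t).prodMk (hasDerivAt_sin t)

theorem polar {v : V} (hv : v ≠ 0) : ∃ r t : ℝ, 0 < r ∧ v = r • ee t := by
  have hz : (⟨v.1, v.2⟩ : ℂ) ≠ 0 := fun e => hv (Prod.ext (congrArg Complex.re e)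
    (congrArg Complex.im e))
  have n := norm_pos_iff.2 hz
  refine ⟨‖(⟨v.1, v.2⟩ : ℂ)‖, Complex.arg ⟨v.1, v.2⟩, n, ?_⟩
  ext
  · simp only [ee, Prod.smul_fst, smul_eq_mul, Complex.cos_arg hz]; field_simp
  · simp only [ee, Prod.smul_snd, smul_eq_mul, Complex.sin_arg]; field_simp

theorem F0.wt_hom (h : F0 M Φ) {x v : V} (hx : x ∈ M) (hv : v ≠ 0) {c : ℝ} (hc : 0 < c) :
    wt Φ (x, c • v) = wt Φ (x, v) := by
  simp only [wt, h.homr hx hv hc]

theorem FS.K_const (h : FS M Φ) {x v : V} (hx : x ∈ M) (hv : v ≠ 0) :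
    Φ (x, wt Φ (x, v)) = kap Φ x := by
  obtain ⟨r, t, r0, rfl⟩ := polar hv
  rw [h.wt_hom hx (ee_ne t) r0]
  have d : ∀ s, HasDerivAt (fun s => Φ (x, wt Φ (x, ee s))) 0 s := fun s => by
    have := h.K_crv (x := fun _ => x) (v := ee) hx (ee_ne s) (hasDerivAt_const _ _) (ee_deriv s)
    have z : ∀ p, D1 Φ p (0, 0) = 0 := fun p => map_zero _
    simpa [z] using this
  have := is_const_of_deriv_eq_zero (fun s => (d s).differentiableAt) (fun s => (d s).deriv) t 0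
  simpa [kap, ee] using this

theorem F0.kap_pos (h : F0 M Φ) {x : V} (hx : x ∈ M) : 0 < kap Φ x :=
  h.pos x hx _ (h.wt_ne hx (by simp))

theorem F0.D1_dAt (h : F0 M Φ) {x v : V} (hx : x ∈ M) (hv : v ≠ 0) (q : V × V) :
    DifferentiableAt ℝ (fun y => D1 Φ (y, v) q) x :=
  ((h.dAt2 hx hv).comp x (differentiableAt_id.prodMk (differentiableAt_const v))).clm_apply
    (differentiableAt_const q)

theorem F0.kap_dAt (h : F0 M Φ) {x : V} (hx : x ∈ M) : DifferentiableAt ℝ (kap Φ) x :=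
  (h.dAt hx (h.wt_ne hx (by simp))).comp x (differentiableAt_id.prodMk
    ((h.D1_dAt hx (by simp) _).neg.prodMk (h.D1_dAt hx (by simp) _)))

noncomputable def pp (Φ : V × V → ℝ) (x : V) : V →L[ℝ] ℝ := (3 * kap Φ x)⁻¹ • fderiv ℝ (kap Φ) x

theorem FS.rel (h : FS M Φ) {x v : V} (hx : x ∈ M) (hv : v ≠ 0) (a : V) :
    D1 Φ (x, wt Φ (x, v)) (a, 0) + kap Φ x / Φ (x, v) * D1 Φ (x, v) (a, 0) =
      3 * kap Φ x * pp Φ x a := by
  have d1 := h.K_crv (x := fun s => x + s • a) (v := fun _ => v) (t := 0) (by simpa using hx) hv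
    (ln x a 0) (hasDerivAt_const _ _)
  have d2 : HasDerivAt (fun s : ℝ => kap Φ (x + s • a)) (fderiv ℝ (kap Φ) x a) 0 := by
    exact (h.kap_dAt hx).hasFDerivAt.comp_hasDerivAt_of_eq (0:ℝ) (ln x a 0) (by simp)
  simp only [zero_smul, add_zero, h.K_const hx hv] at d1
  have := d1.unique (d2.congr_of_eventuallyEq (by
    filter_upwards [ln_ev h.op hx a] with s hs using h.K_const hs hv))
  have k := h.kap_pos hx
  rw [this, pp, ContinuousLinearMap.smul_apply, smul_eq_mul]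
  field_simp

noncomputable def GG (Φ : V × V → ℝ) (x u : V) : ℝ := D1 Φ (x, u) (u, 0) / 2 - pp Φ x u * Φ (x, u)

theorem FS.G_crv (h : FS M Φ) {x : V} {u : ℝ → V} {u' : V} {t : ℝ} (hx : x ∈ M) (hu : u t ≠ 0)
    (du : HasDerivAt u u' t) : HasDerivAt (fun s => GG Φ x (u s))
      (D1 Φ (x, u t) (u', 0) - pp Φ x u' * Φ (x, u t) - pp Φ x (u t) * D1 Φ (x, u t) (0, u')) t := by
  have a := (h.crv2 (x := fun _ => x) hx hu (hasDerivAt_const _ _) du
    (du.prodMk (hasDerivAt_const t (0:V)))).div_const 2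
  have b := ((pp Φ x).hasFDerivAt.comp_hasDerivAt t du).mul
    (h.crv (x := fun _ => x) hx hu (hasDerivAt_const _ _) du)
  refine (a.sub b).congr_deriv ?_
  rw [h.sym hx hu, h.el x hx _ hu]
  simp only [Function.comp]
  ring

theorem F0.G_hom (h : F0 M Φ) {x v : V} (hx : x ∈ M) (hv : v ≠ 0) {c : ℝ} (hc : c ≠ 0) :
    GG Φ x (c • v) = c * |c| * GG Φ x v := by
  simp only [GG, D1_l, h.homl hx hv hc, map_smul, smul_eq_mul, h.hom x hx]
  ring

end Pool.Agent.H.MP_78211a_gt
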