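import Pool.Agent.H.MP_78211a_gt.B

set_option autoImplicit false

namespace Pool.Agent.H.MP_78211a_gt

open Set Filter Topology Real

variable {M : Set V} {Φ : V × V → ℝ}

theorem mono_le {f f' g g' : ℝ → ℝ} (hf : ∀ t, HasDerivAt f (f' t) t)
    (hg : ∀ t, HasDerivAt g (g' t) t) {a b : ℝ} (hab : a ≤ b)
    (h : ∀ t ∈ Icc a b, f' t ≤ g' t) : f b - f a ≤ g b - g a := by
  have := image_le_of_deriv_right_le_deriv_boundary (f := fun t => f t - f a) (f' := f')
    (a := a) (b := b) (fun t _ => ((hf t).sub_const _).continuousAt.continuousWithinAt)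
    (fun t _ => ((hf t).sub_const _).hasDerivWithinAt) (B := fun t => g t - g a)
    (B' := g') (by simp) (fun t _ => ((hg t).sub_const _).continuousAt.continuousWithinAt)
    (fun t _ => ((hg t).sub_const _).hasDerivWithinAt)
    (fun t ht => h t ⟨ht.1, ht.2.le⟩) ⟨hab, le_rfl⟩
  exact this

theorem expand {v w : V} {k : ℝ} (h : k * det v w = 1) (u : V) :
    u = (k * det u w) • v + (k * det v u) • w := by
  simp only [det] at h
  ext
  · simp only [det, Prod.fst_add, Prod.smul_fst, smul_eq_mul]; linear_combination (-u.1) * h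
  · simp only [det, Prod.snd_add, Prod.smul_snd, smul_eq_mul]; linear_combination (-u.2) * h

theorem det_smul_r (a b : V) (c : ℝ) : det a (c • b) = c * det a b := by
  simp only [det, Prod.smul_fst, Prod.smul_snd, smul_eq_mul]; ring

theorem det_smul_l (a b : V) (c : ℝ) : det (c • a) b = c * det a b := by
  simp only [det, Prod.smul_fst, Prod.smul_snd, smul_eq_mul]; ring

theorem det_self (a : V) : det a a = 0 := by simp only [det]; ring

theorem det_swap (a b : V) : det a b = -det b a := by simp only [det]; ring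

theorem det_neg_r (a b : V) : det a (-b) = -det a b := by
  simp only [det, Prod.fst_neg, Prod.snd_neg]; ring

theorem det_ext {a b : V} (h : ∀ u, det u a = det u b) : a = b := by
  have h1 := h (1, 0)
  have h2 := h (0, 1)
  simp only [det] at h1 h2
  ext <;> linarith

theorem ee_pi (t : ℝ) : ee (t + π) = -ee t := by simp [ee]

theorem tot_bd {n : V → ℝ} (ntri : ∀ (a b : ℝ) (p q : V), n p = 1 → n q = 1 →
      n (a • p + b • q) ≤ |a| + |b|) {v w : ℝ → V} {lam mu La Mu r : ℝ → ℝ} {k : ℝ} (k0 : 0 < k)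
    (l0 : ∀ t, 0 < lam t) (m0 : ∀ t, 0 < mu t)
    (hLa : ∀ t, HasDerivAt La (lam t) t) (hMu : ∀ t, HasDerivAt Mu (mu t) t)
    (hv : ∀ t, HasDerivAt v (lam t • w t) t) (hw : ∀ t, HasDerivAt w (-(mu t) • v t) t)
    (av : ∀ t, v (t + π) = -v t) (aw : ∀ t, w (t + π) = -w t)
    (r0 : ∀ t, 0 < r t) (hr : ∀ t, v t = r t • ee t) (nv : ∀ t, n (v t) = 1) (nw : ∀ t, n (w t) = 1)
    (dvw : ∀ t, k * det (v t) (w t) = 1)
    (sw : ∀ t, ∃ s ∈ Icc t (t + π), v s = w t ∧ w s = -v t) (t : ℝ) :
    La (t + π) + Mu (t + π) - (La t + Mu t) ≤ 8 := by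
  obtain ⟨s, hs, e1, e2⟩ := sw t
  let a : V → ℝ := fun u => -(k * det (w t) u)
  let b : V → ℝ := fun u => k * det (v t) u
  have one : ∀ u, n u = 1 → 1 ≤ |a u| + |b u| := fun u hu => by
    have := ntri (k * det u (w t)) (k * det (v t) u) _ _ (nv t) (nw t)
    rw [← expand (dvw t) u, hu] at this
    simp only [a, b, abs_neg]
    rwa [det_swap u, mul_neg, abs_neg] at this
  have dav : ∀ z, HasDerivAt (fun z => a (v z)) (lam z * a (w z)) z := fun z =>
    ((det_deriv (hv z) (w t)).const_mul k).neg.congr_deriv (by simp only [a, det_smul_r]; ring)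
  have dbv : ∀ z, HasDerivAt (fun z => b (v z)) (lam z * b (w z)) z := fun z =>
    ((det_deriv (hv z) (v t)).const_mul k).congr_deriv (by simp only [b, det_smul_r]; ring)
  have daw : ∀ z, HasDerivAt (fun z => a (w z)) (-mu z * a (v z)) z := fun z =>
    ((det_deriv (hw z) (w t)).const_mul k).neg.congr_deriv (by simp only [a, det_smul_r]; ring)
  have dbw : ∀ z, HasDerivAt (fun z => b (w z)) (-mu z * b (v z)) z := fun z =>
    ((det_deriv (hw z) (v t)).const_mul k).congr_deriv (by simp only [b, det_smul_r]; ring)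
  have a1 : a (v t) = 1 := by simp only [a]; rw [det_swap, ← dvw t]; ring
  have a2 : a (w t) = 0 := by simp [a, det_self]
  have b1 : b (v t) = 0 := by simp [b, det_self]
  have b2 : b (w t) = 1 := dvw t
  have an : ∀ u, a (-u) = -a u := fun u => by simp only [a, det_neg_r]; ring
  have bn : ∀ u, b (-u) = -b u := fun u => by simp only [b, det_neg_r]; ring
  have dv : ∀ p q, det (v p) (v q) = r p * r q * sin (q - p) := fun p q => by
    rw [hr p, hr q, det_smul_l, det_smul_r, det_ee]; ring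
  have sb : ∀ z ∈ Icc t (t + π), 0 ≤ b (v z) := fun z hz => by
    simp only [b, dv]
    have := sin_nonneg_of_nonneg_of_le_pi (x := z - t) (by linarith [hz.1]) (by linarith [hz.2])
    have := r0 t
    have := r0 z
    positivity
  have sa1 : ∀ z ∈ Icc t s, 0 ≤ a (v z) := fun z hz => by
    simp only [a]
    rw [← e1, det_swap, mul_neg, neg_neg, dv]
    have := sin_nonneg_of_nonneg_of_le_pi (x := s - z) (by linarith [hz.2])
      (by linarith [hz.1, hs.2])
    have := r0 s
    have := r0 z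
    positivity
  have sa2 : ∀ z ∈ Icc s (t + π), a (v z) ≤ 0 := fun z hz => by
    simp only [a]
    rw [← e1, dv, neg_nonpos]
    have := sin_nonneg_of_nonneg_of_le_pi (x := z - s) (by linarith [hz.1])
      (by linarith [hz.2, hs.1])
    have := r0 s
    have := r0 z
    positivity
  have c0 : ∀ z : ℝ, HasDerivAt (fun _ : ℝ => (0:ℝ)) 0 z := fun z => hasDerivAt_const _ _
  have wa1 : ∀ z ∈ Icc t s, a (w z) ≤ 0 := fun z hz => by
    have := mono_le daw c0 hz.1 fun y hy => by
      nlinarith [m0 y, sa1 y ⟨hy.1, hy.2.trans hz.2⟩]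
    linarith
  have wa2 : ∀ z ∈ Icc s (t + π), a (w z) ≤ 0 := fun z hz => by
    have := mono_le c0 daw hz.2 fun y hy => by
      nlinarith [m0 y, sa2 y ⟨hz.1.trans hy.1, hy.2⟩]
    rw [aw, an] at this
    linarith
  have wb1 : ∀ z ∈ Icc t s, 0 ≤ b (w z) := fun z hz => by
    have := mono_le dbw c0 hz.2 fun y hy => by
      nlinarith [m0 y, sb y ⟨hz.1.trans hy.1, hy.2.trans hs.2⟩]
    rw [e2, bn] at this
    linarith
  have wb2 : ∀ z ∈ Icc s (t + π), b (w z) ≤ 0 := fun z hz => by
    have := mono_le dbw c0 hz.1 fun y hy => by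
      nlinarith [m0 y, sb y ⟨hs.1.trans hy.1, hy.2.trans hz.2⟩]
    rw [e2, bn] at this
    linarith
  have q1 := mono_le hMu (fun z => ((daw z).add (dbw z)).neg) hs.1 fun z hz => by
    have := one _ (nv z)
    rw [abs_of_nonneg (sa1 z hz), abs_of_nonneg (sb z ⟨hz.1, hz.2.trans hs.2⟩)] at this
    nlinarith [m0 z]
  have q2 := mono_le hMu (fun z => (daw z).sub (dbw z)) hs.2 fun z hz => by
    have := one _ (nv z)
    rw [abs_of_nonpos (sa2 z hz), abs_of_nonneg (sb z ⟨hs.1.trans hz.1, hz.2⟩)] at this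
    nlinarith [m0 z]
  have q3 := mono_le hLa (fun z => (dbv z).sub (dav z)) hs.1 fun z hz => by
    have := one _ (nw z)
    rw [abs_of_nonpos (wa1 z hz), abs_of_nonneg (wb1 z hz)] at this
    nlinarith [l0 z]
  have q4 := mono_le hLa (fun z => ((dav z).add (dbv z)).neg) hs.2 fun z hz => by
    have := one _ (nw z)
    rw [abs_of_nonpos (wa2 z hz), abs_of_nonpos (wb2 z hz)] at this
    nlinarith [l0 z]
  simp only [Pi.neg_apply, Pi.add_apply, Pi.sub_apply, e1, e2, av, aw, an, bn, a1, a2, b1, b2]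
    at q1 q2 q3 q4
  linarith

theorem FS.G_zero (h : FS M Φ) {x u : V} (hx : x ∈ M) (hu : u ≠ 0) : GG Φ x u = 0 := by
  set k := kap Φ x with hk
  have k0 : 0 < k := h.kap_pos hx
  have p0 : ∀ t, 0 < Φ (x, ee t) := fun t => h.pos x hx _ (ee_ne t)
  let r : ℝ → ℝ := fun t => (Φ (x, ee t))⁻¹
  have r0 : ∀ t, 0 < r t := fun t => inv_pos.2 (p0 t)
  let v : ℝ → V := fun t => r t • ee t
  let w : ℝ → V := fun t => k⁻¹ • wt Φ (x, ee t)
  have v0 : ∀ t, v t ≠ 0 := fun t => smul_ne_zero (r0 t).ne' (ee_ne t)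
  have w0 : ∀ t, w t ≠ 0 := fun t => smul_ne_zero (inv_pos.2 k0).ne' (h.wt_ne hx (ee_ne t))
  have nv : ∀ t, Φ (x, v t) = 1 := fun t => by
    simp only [v]; rw [h.hom x hx, abs_of_pos (r0 t)]; exact inv_mul_cancel₀ (p0 t).ne'
  have nw : ∀ t, Φ (x, w t) = 1 := fun t => by
    simp only [w]
    rw [h.hom x hx, abs_of_pos (inv_pos.2 k0), h.K_const hx (ee_ne t)]
    exact inv_mul_cancel₀ k0.ne'
  have wv : ∀ t, wt Φ (x, v t) = k • w t := fun t => by
    simp only [v, w]
    rw [h.wt_hom hx (ee_ne t) (r0 t), smul_smul, mul_inv_cancel₀ k0.ne', one_smul]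
  have xv : ∀ t a, D1 Φ (x, v t) (0, a) = k * det a (w t) := fun t a => by
    rw [← det_wt, wv, det_smul_r]
  have dvw : ∀ t, k * det (v t) (w t) = 1 := fun t => by rw [← xv, h.euler hx (v0 t), nv]
  have xw : ∀ t a, D1 Φ (x, w t) (0, a) = k * det (v t) a := fun t a => by
    have := h.perp hx (v0 t) a
    rwa [h.K_const hx (v0 t), nv, div_one, wv, h.homr hx (w0 t) k0] at this
  have ww : ∀ t, wt Φ (x, w t) = -k • v t := fun t => det_ext fun a => by
    rw [det_wt, xw, det_smul_r, det_swap]; ring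
  let v' : ℝ → V := fun t => r t • (-sin t, cos t) +
    (-D1 Φ (x, ee t) (0, (-sin t, cos t)) / Φ (x, ee t) ^ 2) • ee t
  have dv : ∀ t, HasDerivAt v (v' t) t := fun t =>
    ((h.crv (x := fun _ => x) hx (ee_ne t) (hasDerivAt_const _ _) (ee_deriv t)).inv
      (p0 t).ne').smul (ee_deriv t)
  let w' : ℝ → V := fun t => k⁻¹ • wt2 Φ (x, ee t) (0, (-sin t, cos t))
  have dw : ∀ t, HasDerivAt w (w' t) t := fun t =>
    (h.wt_crv (x := fun _ => x) hx (ee_ne t) (hasDerivAt_const _ _) (ee_deriv t)).const_smul k⁻¹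
  have un : ∀ (γ : ℝ → V) (γ' : V) (t : ℝ), HasDerivAt γ γ' t → γ t ≠ 0 → (∀ s, Φ (x, γ s) = 1) →
      D1 Φ (x, γ t) (0, γ') = 0 := fun γ γ' t d z e => by
    have := h.crv (x := fun _ => x) hx z (hasDerivAt_const _ _) d
    simp only [e] at this
    exact this.unique (hasDerivAt_const _ _)
  let lam : ℝ → ℝ := fun t => k * r t ^ 2
  let mu : ℝ → ℝ := fun t => k * det (w t) (w' t)
  have l0 : ∀ t, 0 < lam t := fun t => mul_pos k0 (pow_pos (r0 t) 2)
  have hv : ∀ t, HasDerivAt v (lam t • w t) t := fun t => by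
    refine (dv t).congr_deriv ?_
    have z := un v _ t (dv t) (v0 t) nv
    rw [xv] at z
    rw [expand (dvw t) (v' t), z, zero_smul, zero_add]
    congr 1
    have := sin_sq_add_cos_sq t
    simp only [lam, v, v', det, ee, Prod.fst_add, Prod.snd_add, Prod.smul_fst, Prod.smul_snd,
      smul_eq_mul]
    linear_combination (k * r t ^ 2) * this
  have ew : ∀ t, w' t = -(mu t) • v t := fun t => by
    have z := un w _ t (dw t) (w0 t) nw
    rw [xw] at z
    rw [expand (dvw t) (w' t), z, zero_smul, add_zero, det_swap]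
    simp only [mu, mul_neg]
  have hw : ∀ t, HasDerivAt w (-(mu t) • v t) t := fun t => ew t ▸ dw t
  have cv : Continuous v := continuous_iff_continuousAt.2 fun t => (dv t).continuousAt
  have cw : Continuous w := continuous_iff_continuousAt.2 fun t => (dw t).continuousAt
  have ce : Continuous ee := continuous_iff_continuousAt.2 fun t => (ee_deriv t).continuousAt
  have cr : Continuous r := continuous_iff_continuousAt.2 fun t =>
    ((h.crv (x := fun _ => x) hx (ee_ne t) (hasDerivAt_const _ _) (ee_deriv t)).inv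
      (p0 t).ne').continuousAt
  have cl : Continuous lam := continuous_const.mul (cr.pow 2)
  have c2 : Continuous fun t => fderiv ℝ (fderiv ℝ Φ) (x, ee t) :=
    h.cont2.comp_continuous (continuous_const.prodMk ce) fun t => ⟨hx, ee_ne t⟩
  have cw' : Continuous w' := by
    simp only [w', wt2, D2]
    fun_prop
  have cm : Continuous mu := by
    simp only [mu, det]
    fun_prop
  have av : ∀ t, v (t + π) = -v t := fun t => by
    simp only [v, r, ee_pi, h.neg hx, smul_neg]
  have aw : ∀ t, w (t + π) = -w t := fun t => by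
    simp only [w, wt, ee_pi, h.homn hx (ee_ne t), ← smul_neg, Prod.neg_mk]
  have mne : ∀ t, mu t ≠ 0 := fun t e => by
    have d1 := h.wt_crv (x := fun _ => x) hx (w0 t) (hasDerivAt_const _ _) (hw t)
    simp only [ww] at d1
    have d2 := d1.unique ((hv t).const_smul (-k))
    have z : wt2 Φ (x, w t) (0, -mu t • v t) = 0 := by
      have : ∀ q, D2 Φ (x, w t) (0, 0) q = 0 := fun q => by
        unfold D2
        rw [show ((0, 0) : V × V) = 0 from rfl, map_zero]; rfl
      simp [e, wt2, this]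
    rw [z, smul_smul] at d2
    exact smul_ne_zero (mul_ne_zero (neg_ne_zero.2 k0.ne') (l0 t).ne') (w0 t) d2.symm
  have dvv : ∀ p q, det (v p) (v q) = r p * r q * sin (q - p) := fun p q => by
    simp only [v]; rw [det_smul_l, det_smul_r, det_ee]; ring
  have m0 : ∀ t, 0 < mu t := by
    by_contra hn
    push Not at hn
    obtain ⟨t0, h0⟩ := hn
    have ng : ∀ t, mu t ≤ 0 := fun t => by
      by_contra h1
      push Not at h1
      obtain ⟨s, -, e⟩ := intermediate_value_uIcc (a := t0) (b := t) cm.continuousOn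
        (mem_uIcc.2 (Or.inl ⟨h0, h1.le⟩))
      exact mne s e
    have := mono_le (fun z : ℝ => hasDerivAt_const z (0:ℝ)) (fun z => det_deriv (hw z) (v 0))
      (a := 0) (b := 0 + π) (by linarith [pi_pos]) fun z hz => by
        rw [det_smul_r, dvv]
        have := sin_nonneg_of_nonneg_of_le_pi (x := z - 0) (by linarith [hz.1])
          (by linarith [hz.2])
        exact mul_nonneg (neg_nonneg.2 (ng z)) (mul_nonneg (mul_pos (r0 _) (r0 _)).le this)
    rw [aw, det_neg_r] at this
    nlinarith [dvw 0]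
  have sw : ∀ t, ∃ s ∈ Icc t (t + π), v s = w t ∧ w s = -v t := fun t => by
    have d0 : 0 < det (v t) (w t) := by nlinarith [dvw t]
    have cd : Continuous fun s => det (v s) (w t) := by simp only [det]; fun_prop
    obtain ⟨s, hs, e⟩ := intermediate_value_Icc' (show t ≤ t + π by linarith [pi_pos])
      cd.continuousOn (show (0:ℝ) ∈ _ from ⟨by
        simp only [av]; rw [det_swap, det_neg_r, det_swap]; linarith, d0.le⟩)
    have e1 := expand (dvw s) (w t)
    simp only at e
    rw [e, mul_zero, zero_smul, add_zero] at e1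
    set α := k * det (w t) (w s)
    have a1 : |α| = 1 := by
      have := nw t
      rwa [e1, h.hom x hx, nv, mul_one] at this
    have a2 : 0 < α := by
      rw [e1, det_smul_r, dvv] at d0
      have := sin_nonneg_of_nonneg_of_le_pi (x := s - t) (by linarith [hs.1]) (by linarith [hs.2])
      by_contra hn
      push Not at hn
      nlinarith [mul_nonneg (mul_pos (r0 t) (r0 s)).le this]
    rw [abs_of_pos a2] at a1
    rw [a1, one_smul] at e1
    refine ⟨s, hs, e1.symm, ?_⟩
    have := wv s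
    rw [← e1, ww, neg_smul, ← smul_neg] at this
    exact (smul_right_injective _ k0.ne' this).symm
  have rel : ∀ t a, D1 Φ (x, w t) (a, 0) + D1 Φ (x, v t) (a, 0) = 3 * pp Φ x a := fun t a => by
    have := h.rel hx (v0 t) a
    rw [wv, h.homl hx (w0 t) k0.ne', abs_of_pos k0, nv, ← hk] at this
    refine mul_left_cancel₀ k0.ne' ?_
    linear_combination this
  have gn : ∀ u, u ≠ 0 → GG Φ x (-u) = -GG Φ x u := fun u hu => by
    simpa using h.G_hom hx hu (c := -1) (by norm_num)
  have hLa : ∀ t, HasDerivAt (fun t => ∫ s in (0:ℝ)..t, lam s) (lam t) t := fun t =>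
    (cl.integral_hasStrictDerivAt 0 t).hasDerivAt
  have hMu : ∀ t, HasDerivAt (fun t => ∫ s in (0:ℝ)..t, mu s) (mu t) t := fun t =>
    (cm.integral_hasStrictDerivAt 0 t).hasDerivAt
  have fin := fiber_ode (x := fun t => GG Φ x (v t)) (y := fun t => GG Φ x (w t)) cl cm l0 m0
    hLa hMu (fun t => (h.G_crv hx (v0 t) (hv t)).congr_deriv (by
      have := rel t (w t)
      rw [D1_l, D1_r, xv, det_self, map_smul, nv, GG, nw, smul_eq_mul]
      linear_combination (lam t) * this))
    (fun t => (h.G_crv hx (w0 t) (hw t)).congr_deriv (by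
      have := rel t (v t)
      rw [D1_l, D1_r, xw, det_self, map_smul, nw, GG, nv, smul_eq_mul]
      linear_combination (-mu t) * this))
    (fun t => by simp only [av, gn _ (v0 t)]) (fun t => by simp only [aw, gn _ (w0 t)])
    (tot_bd (n := fun u => Φ (x, u)) (fun a b p q hp hq => by
      have := h.tri x hx (a • p) (b • q)
      rwa [h.hom x hx, h.hom x hx, hp, hq, mul_one, mul_one] at this)
      k0 l0 m0 hLa hMu hv hw av aw r0 (fun _ => rfl) nv nw dvw sw)
    hv hw av aw r0 (fun _ => rfl) (fun t => by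
      obtain ⟨s, -, e1, e2⟩ := sw t
      exact ⟨s, e1, by simp only [e2, gn _ (v0 t)]⟩)
  obtain ⟨ρ, t, ρ0, rfl⟩ := polar hu
  have e : ρ • ee t = (ρ * Φ (x, ee t)) • v t := by
    simp only [v, r, smul_smul]
    rw [mul_assoc, mul_inv_cancel₀ (p0 t).ne', mul_one]
  rw [e, h.G_hom hx (v0 t) (mul_pos ρ0 (p0 t)).ne', fin t, mul_zero]

theorem FS.berwald (h : FS M Φ) {x v : V} (hx : x ∈ M) (hv : v ≠ 0) (a : V) :
    D1 Φ (x, v) (a, 0) = pp Φ x a * Φ (x, v) + pp Φ x v * D1 Φ (x, v) (0, a) := by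
  have d := h.G_crv (u := fun s => v + s • a) (t := 0) hx (by simpa using hv) (ln v a 0)
  have := d.unique ((hasDerivAt_const (0:ℝ) (0:ℝ)).congr_of_eventuallyEq (by
    filter_upwards [ln_ev isOpen_compl_singleton (show v ∈ ({0}ᶜ : Set V) from hv) a] with s hs
      using h.G_zero hx hs))
  simp only [zero_smul, add_zero] at this
  linarith

end Pool.Agent.H.MP_78211a_gt
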