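import Pool.Agent.H.MP_78211a_gt.C

set_option autoImplicit false

namespace Pool.Agent.H.MP_78211a_gt

open Set Filter Topology Real

variable {M : Set V} {Φ : V × V → ℝ}

theorem F0.P_dAt (h : F0 M Φ) {x v : V} (hx : x ∈ M) (hv : v ≠ 0) :
    DifferentiableAt ℝ (fun y => Φ (y, v)) x :=
  (h.dAt hx hv).comp x (differentiableAt_id.prodMk (differentiableAt_const v))

theorem FS.pp_eq (h : FS M Φ) {x v : V} (hx : x ∈ M) (hv : v ≠ 0) :
    pp Φ x v = D1 Φ (x, v) (v, 0) / (2 * Φ (x, v)) := by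
  have := h.berwald hx hv v
  rw [h.euler hx hv] at this
  have p := h.pos x hx v hv
  rw [this]; field_simp; ring

theorem FS.pp_dAt (h : FS M Φ) {x : V} (hx : x ∈ M) : DifferentiableAt ℝ (pp Φ) x := by
  have a : ∀ v : V, v ≠ 0 → DifferentiableAt ℝ (fun y => D1 Φ (y, v) (v, 0) / (2 * Φ (y, v))) x :=
    fun v hv => by
      simp only [div_eq_mul_inv]
      exact (h.D1_dAt hx hv _).mul (((h.P_dAt hx hv).const_mul 2).inv
        (by have := h.pos x hx v hv; positivity))
  have b := ((a (1, 0) (by simp)).smul_const (ContinuousLinearMap.fst ℝ ℝ ℝ)).add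
    ((a (0, 1) (by simp)).smul_const (ContinuousLinearMap.snd ℝ ℝ ℝ))
  refine b.congr_of_eventuallyEq ?_
  filter_upwards [h.op.mem_nhds hx] with y hy
  simp only [Pi.add_apply]
  rw [← h.pp_eq hy (by simp), ← h.pp_eq hy (by simp)]
  ext <;> simp

theorem F0.log_d (h : F0 M Φ) {x : V} (hx : x ∈ M) :
    HasFDerivAt (fun y => (3:ℝ)⁻¹ * log (kap Φ y)) (pp Φ x) x := by
  have := ((h.kap_dAt hx).hasFDerivAt.log (h.kap_pos hx).ne').const_mul (3:ℝ)⁻¹
  rwa [smul_smul, ← mul_inv] at this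

noncomputable def uu (Φ : V × V → ℝ) (x : V) : ℝ := exp (-((3:ℝ)⁻¹ * log (kap Φ x)))

theorem uu_pos (x : V) : 0 < uu Φ x := exp_pos _

theorem F0.uu_d (h : F0 M Φ) {x : V} (hx : x ∈ M) :
    HasFDerivAt (uu Φ) (uu Φ x • -pp Φ x) x := (h.log_d hx).neg.exp

noncomputable def RL (Φ : V × V → ℝ) (x : V) : V →L[ℝ] V →L[ℝ] ℝ :=
  fderiv ℝ (pp Φ) x - (pp Φ x).smulRight (pp Φ x)

theorem RL_apply (x a b : V) : RL Φ x a b = fderiv ℝ (pp Φ) x a b - pp Φ x a * pp Φ x b := by
  simp [RL]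

theorem FS.P_sym (h : FS M Φ) {x : V} (hx : x ∈ M) (a b : V) :
    fderiv ℝ (pp Φ) x a b = fderiv ℝ (pp Φ) x b a :=
  second_derivative_symmetric_of_eventually_of_real
    (by filter_upwards [h.op.mem_nhds hx] with y hy using h.log_d hy)
    (h.pp_dAt hx).hasFDerivAt a b

theorem FS.R_sym (h : FS M Φ) {x : V} (hx : x ∈ M) (a b : V) : RL Φ x a b = RL Φ x b a := by
  rw [RL_apply, RL_apply, h.P_sym hx, mul_comm]

theorem FS.pp_crv (h : FS M Φ) {x : ℝ → V} {x' : V} {t : ℝ} (hx : x t ∈ M) (dx : HasDerivAt x x' t)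
    (a : V) : HasDerivAt (fun s => pp Φ (x s) a) (fderiv ℝ (pp Φ) (x t) x' a) t := by
  have := ((h.pp_dAt hx).hasFDerivAt.comp_hasDerivAt t dx).clm_apply (hasDerivAt_const t a)
  simpa using this

theorem FS.bx (h : FS M Φ) {x v : V} (hx : x ∈ M) (hv : v ≠ 0) (a b : V) :
    D2 Φ (x, v) (b, 0) (a, 0) = fderiv ℝ (pp Φ) x b a * Φ (x, v) + pp Φ x a * D1 Φ (x, v) (b, 0) +
      (fderiv ℝ (pp Φ) x b v * D1 Φ (x, v) (0, a) + pp Φ x v * D2 Φ (x, v) (b, 0) (0, a)) := by
  have hx' : (fun s : ℝ => x + s • b) 0 ∈ M := by simpa using hx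
  have z : D1 Φ (x, v) 0 = 0 := map_zero _
  have d1 := h.crv2 (x := fun s => x + s • b) (t := 0) (v := fun _ => v) hx' hv (ln x b 0) (hasDerivAt_const _ _)
    (hasDerivAt_const _ ((a, 0) : V × V))
  have d2 := ((h.pp_crv (x := fun s => x + s • b) (t := 0) hx' (ln x b 0) a).mul (h.crv (x := fun s => x + s • b) (t := 0) (v := fun _ => v) hx' hv (ln x b 0)
    (hasDerivAt_const _ _))).add ((h.pp_crv (x := fun s => x + s • b) (t := 0) hx' (ln x b 0) v).mul (h.crv2 (x := fun s => x + s • b) (t := 0) (v := fun _ => v) hx' hv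
      (ln x b 0) (hasDerivAt_const _ _) (hasDerivAt_const _ ((0, a) : V × V))))
  simp only [zero_smul, add_zero, z] at d1 d2
  refine d1.unique (d2.congr_of_eventuallyEq ?_)
  filter_upwards [ln_ev h.op hx b] with s hs using h.berwald hs hv a

theorem FS.bv (h : FS M Φ) {x v : V} (hx : x ∈ M) (hv : v ≠ 0) (a b : V) :
    D2 Φ (x, v) (0, a) (b, 0) = pp Φ x b * D1 Φ (x, v) (0, a) +
      (pp Φ x a * D1 Φ (x, v) (0, b) + pp Φ x v * D2 Φ (x, v) (0, a) (0, b)) := by
  have hv' : (fun s : ℝ => v + s • a) 0 ≠ 0 := by simpa using hv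
  have z : D1 Φ (x, v) 0 = 0 := map_zero _
  have d1 := h.crv2 (x := fun _ => x) (v := fun s => v + s • a) (t := 0) hx hv' (hasDerivAt_const _ _) (ln v a 0)
    (hasDerivAt_const _ ((b, 0) : V × V))
  have d2 := ((h.crv (x := fun _ => x) (v := fun s => v + s • a) (t := 0) hx hv' (hasDerivAt_const _ _) (ln v a 0)).const_mul
    (pp Φ x b)).add (((pp Φ x).hasFDerivAt.comp_hasDerivAt 0 (ln v a 0)).mul
      (h.crv2 (x := fun _ => x) (v := fun s => v + s • a) (t := 0) hx hv' (hasDerivAt_const _ _) (ln v a 0)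
        (hasDerivAt_const _ ((0, b) : V × V))))
  simp only [zero_smul, add_zero, z, Function.comp] at d1 d2
  refine d1.unique (d2.congr_of_eventuallyEq ?_)
  filter_upwards [ln_ev isOpen_compl_singleton (show v ∈ ({0}ᶜ : Set V) from hv) a] with s hs
    using h.berwald hx hs b

theorem FS.curv (h : FS M Φ) {x v : V} (hx : x ∈ M) (hv : v ≠ 0) (a : V) :
    D1 Φ (x, v) (0, a) * RL Φ x v v = Φ (x, v) * RL Φ x a v := by
  have e1 := h.bx hx hv a v
  have e2 := h.bx hx hv v a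
  rw [h.sym hx hv (v, 0) (0, a), h.bv hx hv, h.berwald hx hv v] at e1
  rw [h.sym hx hv (a, 0) (0, v), h.bv hx hv, h.berwald hx hv a, h.sym hx hv,
    h.sym hx hv (0, v) (0, a)] at e2
  rw [h.euler hx hv] at e1 e2
  rw [RL_apply, RL_apply]
  rw [h.P_sym hx v a] at e1
  linear_combination e2 - e1

def Euc (Φ : V × V → ℝ) (x : V) : Prop :=
  ∃ B : V →L[ℝ] V →L[ℝ] ℝ, ∀ v, Φ (x, v) ^ 2 = B v v

theorem FS.euc (h : FS M Φ) {x : V} (hx : x ∈ M) (hR : RL Φ x ≠ 0) : Euc Φ x := by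
  have p0 : ∀ t, 0 < Φ (x, ee t) := fun t => h.pos x hx _ (ee_ne t)
  have d : ∀ s, HasDerivAt (fun s => RL Φ x (ee s) (ee s) / Φ (x, ee s) ^ 2) 0 s := fun s => by
    have a := ((RL Φ x).hasFDerivAt.comp_hasDerivAt s (ee_deriv s)).clm_apply (ee_deriv s)
    have b := (h.crv (x := fun _ => x) hx (ee_ne s) (hasDerivAt_const _ _) (ee_deriv s)).pow 2
    refine (a.div b (pow_pos (p0 s) 2).ne').congr_deriv ?_
    have := h.curv hx (ee_ne s) (-sin s, cos s)
    simp only [Function.comp, Pi.pow_apply]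
    rw [h.R_sym hx (ee s) (-sin s, cos s), div_eq_zero_iff]
    left
    norm_num
    linear_combination (-2 * Φ (x, ee s)) * this
  set K := RL Φ x (ee 0) (ee 0) / Φ (x, ee 0) ^ 2
  have c : ∀ v, RL Φ x v v = K * Φ (x, v) ^ 2 := fun v => by
    by_cases hv : v = 0
    · simp [hv, h.zero hx]
    obtain ⟨r, t, r0, rfl⟩ := polar hv
    have := is_const_of_deriv_eq_zero (fun s => (d s).differentiableAt) (fun s => (d s).deriv) t 0
    have e : RL Φ x (ee t) (ee t) = K * Φ (x, ee t) ^ 2 := by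
      rw [← div_eq_iff (pow_pos (p0 t) 2).ne']; exact this
    simp only [map_smul, ContinuousLinearMap.smul_apply, smul_eq_mul, h.hom x hx, abs_of_pos r0, e]
    ring
  have k0 : K ≠ 0 := fun k => hR (by
    refine ContinuousLinearMap.ext fun a => ContinuousLinearMap.ext fun b => ?_
    have e1 := c (a + b)
    simp only [map_add, ContinuousLinearMap.add_apply, c, k, zero_mul, h.R_sym hx b a] at e1
    simp only [ContinuousLinearMap.zero_apply]
    linarith)
  exact ⟨K⁻¹ • RL Φ x, fun v => by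
    simp only [ContinuousLinearMap.smul_apply, smul_eq_mul, c]; field_simp⟩

theorem cst {f : ℝ → ℝ} (h : ∀ t ∈ Icc (0:ℝ) 1, HasDerivAt f 0 t) : ∀ t ∈ Icc (0:ℝ) 1, f t = f 0 :=
  constant_of_has_deriv_right_zero (fun t ht => (h t ht).continuousAt.continuousWithinAt)
    (fun t ht => (h t (Ico_subset_Icc_self ht)).hasDerivWithinAt)

theorem F0.seg (h : F0 M Φ) {x y : V} (hx : x ∈ M) (hy : y ∈ M) {t : ℝ} (ht : t ∈ Icc (0:ℝ) 1) :
    x + t • (y - x) ∈ M := h.cv.add_smul_sub_mem hx hy ht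

theorem FS.transport (h : FS M Φ) {x y : V} (hx : x ∈ M) (hy : y ∈ M) :
    ∃ c : V →L[ℝ] ℝ, 1 + c (y - x) = uu Φ y / uu Φ x ∧
      ∀ w, Φ (y, (uu Φ y / uu Φ x) • (w + c w • (y - x))) = Φ (x, w) := by
  set z := y - x
  set X : ℝ → V := fun s => x + s • z
  set u : ℝ → ℝ := fun s => uu Φ (X s)
  have u0 : ∀ s, 0 < u s := fun s => uu_pos _
  have du : ∀ s, X s ∈ M → HasDerivAt u (-(u s * pp Φ (X s) z)) s := fun s hs =>
    ((h.uu_d hs).comp_hasDerivAt s (ln x z s)).congr_deriv (by simp [u])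
  have oU : IsOpen {s | X s ∈ M} := h.op.preimage (by fun_prop)
  have cg : ContinuousOn (fun s => (u s)⁻¹ • pp Φ (X s)) {s | X s ∈ M} := fun s hs =>
    (((du s hs).continuousAt.inv₀ (u0 s).ne').smul
      ((h.pp_dAt hs).continuousAt.comp (f := X) (ln x z s).continuousAt)).continuousWithinAt
  set J : ℝ → V →L[ℝ] ℝ := fun t => ∫ s in (0:ℝ)..t, (u s)⁻¹ • pp Φ (X s)
  have dJ : ∀ t ∈ Icc (0:ℝ) 1, ∀ w, HasDerivAt (fun t => J t w) ((u t)⁻¹ * pp Φ (X t) w) t := by
    intro t ht w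
    have a : HasDerivAt J ((u t)⁻¹ • pp Φ (X t)) t :=
      intervalIntegral.integral_hasDerivAt_right
        ((cg.mono fun s hs => h.seg hx hy (by
          rw [uIcc_of_le ht.1] at hs; exact ⟨hs.1, hs.2.trans ht.2⟩)).intervalIntegrable)
        (cg.stronglyMeasurableAtFilter oU t (h.seg hx hy ht))
        (cg.continuousAt (oU.mem_nhds (h.seg hx hy ht)))
    simpa using a.clm_apply (hasDerivAt_const t w)
  have J0 : J 0 = 0 := by simp [J]
  have Jz : ∀ t ∈ Icc (0:ℝ) 1, J t z = (u t)⁻¹ - (u 0)⁻¹ := fun t ht => by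
    have := cst (f := fun t => J t z - (u t)⁻¹) (fun s hs =>
      ((dJ s hs z).sub ((du s (h.seg hx hy hs)).inv (u0 s).ne')).congr_deriv (by
        have := u0 s
        field_simp; ring)) t ht
    simp only [J0, ContinuousLinearMap.zero_apply] at this
    linarith
  have X0 : X 0 = x := by simp [X]
  have X1 : X 1 = y := by simp [X, z]
  refine ⟨-u 1 • J 1, ?_, fun w => ?_⟩
  · have a := u0 0
    have b := u0 1
    simp only [ContinuousLinearMap.smul_apply, smul_eq_mul, Jz 1 (by simp)]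
    rw [← X1, ← X0]
    show _ = u 1 / u 0
    field_simp; ring
  by_cases hw : w = 0
  · simp [hw, h.zero hx, h.zero hy]
  set W : ℝ → V := fun t => (u t / u 0) • (w + (-u t * J t w) • z)
  have W0 : ∀ t ∈ Icc (0:ℝ) 1, W t ≠ 0 := fun t ht e => by
    have a := u0 0
    have b := u0 t
    have e1 := (smul_eq_zero.1 e).resolve_left (div_pos b a).ne'
    have e2 := congrArg (J t) e1
    rw [map_add, map_smul, Jz t ht, map_zero, smul_eq_mul] at e2
    have e3 : J t w * (u t / u 0) = 0 := by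
      refine Eq.trans ?_ e2
      field_simp; ring
    rw [(mul_eq_zero.1 e3).resolve_right (div_pos b a).ne'] at e1
    exact hw (by simpa using e1)
  have := cst (f := fun t => Φ (X t, W t)) (fun t ht => by
    have m := h.seg hx hy ht
    have dW := ((du t m).div_const (u 0)).smul
      ((((du t m).neg.mul (dJ t ht w)).smul_const z).const_add w)
    refine (h.crv (x := X) (v := W) m (W0 t ht) (ln x z t) dW).congr_deriv ?_
    rw [D1_split, h.berwald m (W0 t ht), ← h.euler m (W0 t ht), ← D1_r, ← D1_r, ← D1_add,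
      ← D1_add]
    have : ∀ q : V × V, q = 0 → D1 Φ (X t, W t) q = 0 := fun q e => e ▸ map_zero _
    apply this
    have a := (u0 0).ne'
    have b := (u0 t).ne'
    simp only [W, map_smul, map_add, smul_eq_mul, Pi.neg_apply]
    ext <;> simp <;> field_simp <;> ring) 1 (by simp)
  simp only [X0, X1, W, J0, div_self (u0 0).ne'] at this
  simp only [u, X0, X1] at this
  simpa [u, X1] using this

theorem FS.dich (h : FS M Φ) : (∀ x ∈ M, Euc Φ x) ∨ ∀ x ∈ M, ∃ l : V →L[ℝ] ℝ,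
    (∀ y ∈ M, 0 < 1 + l (y - x) ∧ Φ (y, y - x) * (1 + l (y - x)) ^ 2 = Φ (x, y - x)) ∧
      (l = 0 → ∀ y ∈ M, ∀ v, Φ (y, v) = Φ (x, v)) := by
  by_cases hR : ∃ y ∈ M, RL Φ y ≠ 0
  · obtain ⟨y, hy, hR⟩ := hR
    obtain ⟨B, hB⟩ := h.euc hy hR
    refine Or.inl fun x hx => ?_
    obtain ⟨c, -, hc⟩ := h.transport hx hy
    set T : V →L[ℝ] V := (uu Φ y / uu Φ x) • (ContinuousLinearMap.id ℝ V + c.smulRight (y - x))
    exact ⟨B.bilinearComp T T, fun v => by rw [← hc, hB]; rfl⟩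
  push Not at hR
  refine Or.inr fun x hx => ?_
  have c1 : ∀ y ∈ M, ∀ a, uu Φ y * pp Φ y a = uu Φ x * pp Φ x a := fun y hy a => by
    have := cst (f := fun s => uu Φ (x + s • (y - x)) * pp Φ (x + s • (y - x)) a) (fun t ht => by
      have m := h.seg hx hy ht
      refine (((h.uu_d m).comp_hasDerivAt t (ln x _ t)).mul
        (h.pp_crv (x := fun s => x + s • (y - x)) m (ln x _ t) a)).congr_deriv ?_
      have := RL_apply (Φ := Φ) (x + t • (y - x)) (y - x) a
      rw [hR _ m] at this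
      simp only [ContinuousLinearMap.zero_apply] at this
      simp only [ContinuousLinearMap.smul_apply, ContinuousLinearMap.neg_apply, smul_eq_mul,
        Function.comp]
      linear_combination (-uu Φ (x + t • (y - x))) * this) 1 (by simp)
    simpa using this
  have c2 : ∀ y ∈ M, 1 + (-pp Φ x) (y - x) = uu Φ y / uu Φ x := fun y hy => by
    have := cst (f := fun s => uu Φ (x + s • (y - x)) + s * (uu Φ x * pp Φ x (y - x)))
      (fun t ht => by
        have m := h.seg hx hy ht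
        refine (((h.uu_d m).comp_hasDerivAt t (ln x _ t)).add
          ((hasDerivAt_id t).mul_const _)).congr_deriv ?_
        rw [← c1 _ m]
        simp) 1 (by simp)
    have p := uu_pos (Φ := Φ) x
    simp only [one_smul, add_sub_cancel, one_mul, zero_smul, add_zero, zero_mul] at this
    rw [ContinuousLinearMap.neg_apply, eq_div_iff p.ne']
    linarith
  refine ⟨-pp Φ x, fun y hy => ?_, fun l0 y hy v => ?_⟩
  · obtain ⟨c, c0, hc⟩ := h.transport hx hy
    have p := div_pos (uu_pos (Φ := Φ) y) (uu_pos (Φ := Φ) x)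
    rw [c2 y hy]
    refine ⟨p, ?_⟩
    rw [← hc, show y - x + c (y - x) • (y - x) = (1 + c (y - x)) • (y - x) by module, c0,
      h.hom y hy, h.hom y hy, abs_of_pos p]
    ring
  by_cases hv : v = 0
  · rw [hv, h.zero hx, h.zero hy]
  have p0 : ∀ y ∈ M, ∀ a, pp Φ y a = 0 := fun y hy a => by
    have := c1 y hy a
    rw [neg_eq_zero.1 l0] at this
    simpa [(uu_pos (Φ := Φ) y).ne'] using this
  have := cst (f := fun s => Φ (x + s • (y - x), v)) (fun t ht => by
    have m := h.seg hx hy ht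
    refine (h.crv (x := fun s => x + s • (y - x)) (v := fun _ => v) m hv (ln x _ t) (hasDerivAt_const _ _)).congr_deriv ?_
    rw [h.berwald m hv, p0 _ m, p0 _ m]; simp) 1 (by simp)
  simpa using this

end Pool.Agent.H.MP_78211a_gt
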