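import Pool.Agent.H.MP_78211a_gt.D

set_option autoImplicit false

namespace Pool.Agent.H.MP_78211a_gt

open Set Filter Topology Real MeasureTheory

variable {M : Set V} {Φ : V × V → ℝ} {d : V → V → ℝ}

theorem prim {g : ℝ → ℝ} {U : Set ℝ} (oU : IsOpen U) (cg : ContinuousOn g U) {a t : ℝ}
    (h : uIcc a t ⊆ U) : HasDerivAt (fun u => ∫ s in a..u, g s) (g t) t :=
  intervalIntegral.integral_hasDerivAt_right (cg.mono h).intervalIntegrable
    (cg.stronglyMeasurableAtFilter oU t (h right_mem_uIcc))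
    (cg.continuousAt (oU.mem_nhds (h right_mem_uIcc)))

theorem fence {N : V → ℝ} (cN : Continuous N) (hh : ∀ (c : ℝ) v, N (c • v) = |c| * N v)
    (tr : ∀ u v, N (u + v) ≤ N u + N v) {m B B' : ℝ → ℝ} {ρ κ : ℝ} {y : V} (k0 : 0 ≤ κ)
    (cm : ContinuousOn m (Icc 0 1)) (m0 : κ * m 0 ≤ B 0) (mρ : ∀ t ∈ Icc (0:ℝ) 1, m t ≤ ρ)
    (dB : ∀ t ∈ Icc (0:ℝ) 1, HasDerivAt B (B' t) t) (B0 : ∀ t ∈ Icc (0:ℝ) 1, 0 ≤ B' t)
    (hp : ∀ t ∈ Icc (0:ℝ) 1, m t < ρ → ∃ (p : ℝ → V) (p' : V), HasDerivAt p p' t ∧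
      m t = N (p t - y) ∧ (∀ᶠ s in 𝓝 t, m s ≤ N (p s - y)) ∧ κ * N p' ≤ B' t) :
    κ * m 1 ≤ B 1 := by
  refine image_le_of_liminf_slope_right_le_deriv_boundary (f := fun t => κ * m t) (B' := B')
    (continuousOn_const.mul cm) m0 (fun t ht => (dB t ht).continuousAt.continuousWithinAt)
    (fun t ht => (dB t (Ico_subset_Icc_self ht)).hasDerivWithinAt) (fun t ht r hr => ?_)
    (right_mem_Icc.2 zero_le_one)
  have ht' := Ico_subset_Icc_self ht
  apply Eventually.frequently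
  rcases (mρ t ht').eq_or_lt with e | e
  · filter_upwards [Ioo_mem_nhdsGT ht.2] with z hz
    have := mρ z ⟨ht.1.trans hz.1.le, hz.2.le⟩
    rw [slope_def_field]
    refine lt_of_le_of_lt (div_nonpos_of_nonpos_of_nonneg ?_ (by linarith [hz.1]))
      ((B0 t ht').trans_lt hr)
    nlinarith
  obtain ⟨p, p', dp, e1, e2, e3⟩ := hp t ht' e
  have T : Tendsto (fun z => κ * N (slope p t z)) (𝓝[>] t) (𝓝 (κ * N p')) :=
    ((cN.tendsto p').comp ((hasDerivAt_iff_tendsto_slope.1 dp).mono_left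
      (nhdsGT_le_nhdsNE t))).const_mul κ
  filter_upwards [T.eventually (gt_mem_nhds (e3.trans_lt hr)), self_mem_nhdsWithin,
    e2.filter_mono nhdsWithin_le_nhds] with z h1 h2 h3
  have zt : 0 < z - t := sub_pos.2 h2
  refine lt_of_le_of_lt ?_ h1
  rw [slope_def_field, slope_def_module, hh, abs_of_pos (inv_pos.2 zt), div_le_iff₀ zt, e1]
  have := tr (p z - p t) (p t - y)
  rw [sub_add_sub_cancel] at this
  have : κ * m z ≤ κ * (N (p z - p t) + N (p t - y)) := by gcongr; linarith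
  field_simp
  linarith

structure F1 (M : Set V) (Φ : V × V → ℝ) : Prop extends F0 M Φ where
  ct : ContinuousOn Φ (M ×ˢ univ)

theorem F0.nn (h : F0 M Φ) {x : V} (hx : x ∈ M) (v : V) : 0 ≤ Φ (x, v) := by
  by_cases hv : v = 0
  · rw [hv, h.zero hx]
  · exact (h.pos x hx v hv).le

theorem F1.cAt0 (h : F1 M Φ) {x : V} (hx : x ∈ M) (v : V) : ContinuousAt Φ (x, v) :=
  h.ct.continuousAt ((h.op.prod isOpen_univ).mem_nhds ⟨hx, trivial⟩)

theorem F1.cN (h : F1 M Φ) {x : V} (hx : x ∈ M) : Continuous fun v => Φ (x, v) :=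
  continuous_iff_continuousAt.2 fun v => (h.cAt0 hx v).comp (f := fun v => (x, v)) (by fun_prop)

theorem unit (v : V) (hv : v ≠ 0) : ∃ u ∈ Metric.sphere (0:V) 1, v = ‖v‖ • u :=
  ⟨‖v‖⁻¹ • v, by simp [norm_smul, hv], by simp [smul_smul, hv]⟩

theorem F1.cmp (h : F1 M Φ) {y : V} (hy : y ∈ M) : ∃ c > 0, ∀ v, c * ‖v‖ ≤ Φ (y, v) := by
  obtain ⟨u, hu, hm⟩ := (isCompact_sphere (0:V) 1).exists_isMinOn ⟨(1, 0), by simp⟩
    (h.cN hy).continuousOn
  refine ⟨Φ (y, u), h.pos y hy u (by rintro rfl; simp at hu), fun v => ?_⟩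
  by_cases hv : v = 0
  · simp [hv, h.zero hy]
  obtain ⟨w, hw, e⟩ := unit v hv
  have : Φ (y, u) ≤ Φ (y, w) := hm hw
  conv_rhs => rw [e, h.hom y hy, abs_norm, mul_comm]
  gcongr

theorem F1.tube (h : F1 M Φ) {y : V} (hy : y ∈ M) {κ : ℝ} (k1 : κ < 1) : ∃ ρ > 0, ∀ z,
    Φ (y, z - y) < ρ → z ∈ M ∧ ∀ v, κ * Φ (y, v) ≤ Φ (z, v) := by
  have a : ∀ᶠ z in 𝓝 y, ∀ v ∈ Metric.sphere (0:V) 1, κ * Φ (y, v) < Φ (z, v) := by
    refine (isCompact_sphere (0:V) 1).eventually_forall_of_forall_eventually fun v hv => ?_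
    have p := h.pos y hy v (by rintro rfl; simp at hv)
    refine ContinuousAt.eventually_lt (f := fun q : V × V => κ * Φ (y, q.2)) (g := Φ)
      (((h.cN hy).comp continuous_snd).continuousAt.const_mul κ) (h.cAt0 hy v) ?_
    nlinarith
  obtain ⟨δ, d0, hd⟩ := Metric.eventually_nhds_iff.1 (a.and (h.op.mem_nhds hy))
  obtain ⟨c, c0, hc⟩ := h.cmp hy
  refine ⟨c * δ, by positivity, fun z hz => ?_⟩
  obtain ⟨b1, b2⟩ := hd (y := z) (by
    rw [dist_eq_norm]; exact lt_of_mul_lt_mul_left ((hc _).trans_lt hz) c0.le)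
  refine ⟨b2, fun v => ?_⟩
  by_cases hv : v = 0
  · simp [hv, h.zero hy, h.zero b2]
  obtain ⟨w, hw, e⟩ := unit v hv
  have := b1 w hw
  rw [e, h.hom y hy, h.hom z b2, abs_norm]
  nlinarith [norm_nonneg v]

noncomputable def len (Φ : V × V → ℝ) (x y : V) : ℝ := ∫ t in (0:ℝ)..1, Φ (x + t • (y - x), y - x)

theorem F0.oU (h : F0 M Φ) (x v : V) : IsOpen {s : ℝ | x + s • v ∈ M} :=
  h.op.preimage (by fun_prop)

theorem F0.iU (h : F0 M Φ) {x v : V} {a b : ℝ} (ha : x + a • v ∈ M) (hb : x + b • v ∈ M) :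
    uIcc a b ⊆ {s : ℝ | x + s • v ∈ M} := by
  have : Convex ℝ {s : ℝ | x + s • v ∈ M} := fun s hs t ht p q hp hq e => by
    have := h.cv hs ht hp hq e
    rwa [show p • (x + s • v) + q • (x + t • v) = (p + q) • x + (p • s + q • t) • v by
      simp only [smul_eq_mul]; module, e, one_smul] at this
  exact this.ordConnected.uIcc_subset ha hb

theorem F1.cg (h : F1 M Φ) (x v : V) :
    ContinuousOn (fun s : ℝ => Φ (x + s • v, v)) {s : ℝ | x + s • v ∈ M} :=
  h.ct.comp (f := fun s : ℝ => (x + s • v, v)) (by fun_prop) fun _ hs => ⟨hs, trivial⟩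

theorem F0.len_eq (h : F0 M Φ) {x v : V} {a b : ℝ} (ha : x + a • v ∈ M) (hb : x + b • v ∈ M)
    (hab : a ≤ b) : len Φ (x + a • v) (x + b • v) = ∫ s in a..b, Φ (x + s • v, v) := by
  have := intervalIntegral.smul_integral_comp_add_mul (fun s => Φ (x + s • v, v)) (a := 0) (b := 1)
    (b - a) a
  rw [mul_zero, add_zero, mul_one, add_sub_cancel] at this
  rw [← this, ← intervalIntegral.integral_smul]
  refine intervalIntegral.integral_congr fun t ht => ?_
  have m := h.seg ha hb (by simpa using ht)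
  rw [show x + b • v - (x + a • v) = (b - a) • v by module] at m ⊢
  rw [h.hom _ m, abs_of_nonneg (sub_nonneg.2 hab), smul_eq_mul]
  congr 3; module

structure Ch (M : Set V) (Φ : V × V → ℝ) (d : V → V → ℝ) : Prop extends F1 M Φ where
  nd : ∀ x ∈ M, ∀ y ∈ M, 0 ≤ d x y
  tr : ∀ x ∈ M, ∀ y ∈ M, ∀ z ∈ M, d x z ≤ d x y + d y z
  up : ∀ x ∈ M, ∀ y ∈ M, d x y ≤ len Φ x y
  lo : ∀ y ∈ M, ∀ κ < 1, ∀ᶠ z in 𝓝 y, κ * Φ (y, z - y) ≤ d y z
  ad : ∀ x ∈ M, ∀ v, v ≠ 0 → ∃ δ > 0, ∀ a b c : ℝ, -δ < a → a ≤ b → b ≤ c → c < δ →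
    d (x + a • v) (x + c • v) = d (x + a • v) (x + b • v) + d (x + b • v) (x + c • v)

theorem Ch.eqlen (h : Ch M Φ d) {x v : V} {a b : ℝ} (ha : x + a • v ∈ M) (hb : x + b • v ∈ M)
    (hab : a ≤ b) (ad : ∀ s t, a ≤ s → s ≤ t → t ≤ b →
      d (x + a • v) (x + t • v) = d (x + a • v) (x + s • v) + d (x + s • v) (x + t • v)) :
    d (x + a • v) (x + b • v) = len Φ (x + a • v) (x + b • v) := by
  refine le_antisymm (h.up _ ha _ hb) ?_
  rw [h.len_eq ha hb hab]
  have mem : ∀ t ∈ Icc a b, x + t • v ∈ M := fun t ht => h.iU ha hb (by rwa [uIcc_of_le hab])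
  set G := fun t => ∫ s in a..t, Φ (x + s • v, v)
  have dG : ∀ t ∈ Icc a b, HasDerivAt G (Φ (x + t • v, v)) t := fun t ht =>
    prim (h.oU x v) (h.cg x v) (h.iU ha (mem t ht))
  set D := fun t : ℝ => d (x + a • v) (x + t • v)
  have key : ∀ s ∈ Icc a b, ∀ t ∈ Icc a b, s ≤ t → |D t - D s| ≤ |G t - G s| := by
    intro s hs t ht st
    have e := ad s t hs.1 st ht.2
    have u := h.up _ (mem s hs) _ (mem t ht)
    rw [h.len_eq (mem s hs) (mem t ht) st, ← intervalIntegral.integral_interval_sub_left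
      ((h.cg x v).mono (h.iU ha (mem t ht))).intervalIntegrable
      ((h.cg x v).mono (h.iU ha (mem s hs))).intervalIntegrable] at u
    have := h.nd _ (mem s hs) _ (mem t ht)
    rw [abs_of_nonneg (by simp only [D]; linarith)]
    exact le_trans (by simp only [D, G]; linarith) (le_abs_self _)
  have cD : ContinuousOn D (Icc a b) := fun t ht => by
    have c := (dG t ht).continuousAt.continuousWithinAt (s := Icc a b)
    rw [ContinuousWithinAt, tendsto_iff_dist_tendsto_zero] at c ⊢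
    refine squeeze_zero' (Eventually.of_forall fun _ => dist_nonneg) ?_ c
    filter_upwards [self_mem_nhdsWithin] with s hs
    rcases le_total s t with st | st
    · rw [dist_comm, dist_comm (G s)]; exact key s hs t ht st
    · exact key t ht s hs st
  have := image_le_of_liminf_slope_right_le_deriv_boundary (f := fun t => -D t) (B := fun t => -G t)
    (B' := fun t => -Φ (x + t • v, v)) cD.neg (by
      have := h.nd _ ha _ ha
      simp only [G, D, intervalIntegral.integral_same]; linarith)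
    (fun t ht => (dG t ht).neg.continuousAt.continuousWithinAt)
    (fun t ht => (dG t (Ico_subset_Icc_self ht)).neg.hasDerivWithinAt) (fun t ht r hr => ?_)
    (right_mem_Icc.2 hab)
  · simpa using this
  have mt := mem t (Ico_subset_Icc_self ht)
  apply Eventually.frequently
  have : ∀ᶠ κ in 𝓝[<] (1:ℝ), -(κ * Φ (x + t • v, v)) < r :=
    (ContinuousAt.eventually_lt (f := fun κ : ℝ => -(κ * Φ (x + t • v, v))) (g := fun _ => r)
      (by fun_prop) continuousAt_const (by simpa using hr)).filter_mono nhdsWithin_le_nhds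
  obtain ⟨κ, k1, k2⟩ := (this.and self_mem_nhdsWithin).exists
  have ev := ((ln x v t).continuousAt.eventually (h.lo _ mt κ k2)).filter_mono
    (nhdsWithin_le_nhds (s := Ioi t))
  filter_upwards [ev, Ioo_mem_nhdsGT ht.2] with z h1 h2
  have zt : 0 < z - t := sub_pos.2 h2.1
  rw [show x + z • v - (x + t • v) = (z - t) • v by module, h.hom _ mt, abs_of_pos zt] at h1
  refine lt_of_le_of_lt ?_ k1
  rw [slope_def_field, div_le_iff₀ zt]
  have := ad t z ht.1 h2.1.le h2.2.le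
  simp only [D]
  nlinarith

theorem Ch.loc (h : Ch M Φ d) {x v : V} (hx : x ∈ M) (hv : v ≠ 0) : ∃ δ > 0,
    (∀ a : ℝ, -δ < a → a < δ → x + a • v ∈ M) ∧ ∀ a b : ℝ, -δ < a → a ≤ b → b < δ →
      d (x + a • v) (x + b • v) = len Φ (x + a • v) (x + b • v) := by
  obtain ⟨δ, d0, hd⟩ := h.ad x hx v hv
  obtain ⟨η, e0, he⟩ := Metric.eventually_nhds_iff.1 (ln_ev h.op hx v)
  have mem : ∀ a : ℝ, -min δ η < a → a < min δ η → x + a • v ∈ M := fun a h1 h2 => he (by
    rw [Real.dist_eq, sub_zero, abs_lt]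
    constructor <;> linarith [min_le_right δ η])
  refine ⟨min δ η, by positivity, mem, fun a b h1 h2 h3 => h.eqlen (mem a h1 (by linarith))
    (mem b (by linarith) h3) h2 fun s t s1 s2 s3 => hd a s t ?_ s1 s2 ?_⟩ <;>
  linarith [min_le_left δ η]

theorem F0.fv (h : F0 M Φ) {x y : V} (hx : x ∈ M) (hy : y ∈ M) (hn : y - x ≠ 0) (a b : V) :
    HasDerivAt (fun ε : ℝ => len Φ (x + ε • a) (y + ε • b))
      (∫ t in (0:ℝ)..1, D1 Φ (x + t • (y - x), y - x) (a + t • (b - a), b - a)) 0 := by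
  have ev := ((ln_ev h.op hx a).and (ln_ev h.op hy b)).and
    (ln_ev isOpen_compl_singleton (show y - x ∈ ({0}ᶜ : Set V) from hn) (b - a))
  obtain ⟨η, e0, he⟩ := Metric.nhds_basis_closedBall.eventually_iff.1 ev
  set P : ℝ × ℝ → V × V := fun q =>
    (x + q.2 • (y - x) + q.1 • (a + q.2 • (b - a)), y - x + q.1 • (b - a))
  have e1 : ∀ ε t : ℝ, (x + ε • a + t • (y + ε • b - (x + ε • a)), y + ε • b - (x + ε • a)) =
      P (ε, t) := fun ε t => by
    simp only [P]; congr 1 <;> module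
  have mP : MapsTo P (Metric.closedBall 0 η ×ˢ Icc 0 1) (M ×ˢ {0}ᶜ) := fun q hq => by
    obtain ⟨⟨a1, a2⟩, a3⟩ := he hq.1
    have := e1 q.1 q.2
    exact ⟨by show (P (q.1, q.2)).1 ∈ M; rw [← this]; exact h.seg a1 a2 hq.2, a3⟩
  have cP : Continuous P := by fun_prop
  have cF : ContinuousOn (fun q : ℝ × ℝ => D1 Φ (P q) (a + q.2 • (b - a), b - a))
      (Metric.closedBall 0 η ×ˢ Icc 0 1) :=
    (h.cont1.comp cP.continuousOn mP).clm_apply (by fun_prop)
  obtain ⟨C, hC⟩ := ((isCompact_closedBall (0:ℝ) η).prod isCompact_Icc).exists_bound_of_continuousOn cF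
  have sub : uIoc (0:ℝ) 1 ⊆ Icc 0 1 := by rw [uIoc_of_le zero_le_one]; exact Ioc_subset_Icc_self
  have c0 : ∀ ε ∈ Metric.closedBall (0:ℝ) η, ContinuousOn (fun t => Φ (P (ε, t))) (Icc 0 1) :=
    fun ε hε => h.sm.continuousOn.comp (f := fun t => P (ε, t)) (by fun_prop)
      fun t ht => mP ⟨hε, ht⟩
  have z0 : (0:ℝ) ∈ Metric.closedBall (0:ℝ) η := by simp [e0.le]
  have := (intervalIntegral.hasDerivAt_integral_of_dominated_loc_of_deriv_le (μ := volume)
    (F := fun ε t => Φ (P (ε, t))) (F' := fun ε t => D1 Φ (P (ε, t)) (a + t • (b - a), b - a))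
    (a := 0) (b := 1) (bound := fun _ => C) (Metric.closedBall_mem_nhds (0:ℝ) e0)
    (by
      filter_upwards [Metric.closedBall_mem_nhds (0:ℝ) e0] with ε hε
      exact ((c0 ε hε).mono sub).aestronglyMeasurable measurableSet_uIoc)
    (ContinuousOn.intervalIntegrable (by rw [uIcc_of_le zero_le_one]; exact c0 0 z0))
    (((cF.comp (f := fun t => ((0:ℝ), t)) (by fun_prop) fun t ht => ⟨z0, ht⟩).mono
      sub).aestronglyMeasurable measurableSet_uIoc)
    (Eventually.of_forall fun t ht ε hε => hC (ε, t) ⟨hε, sub ht⟩) intervalIntegrable_const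
    (Eventually.of_forall fun t ht ε hε =>
      h.crv (x := fun ε => x + t • (y - x) + ε • (a + t • (b - a)))
        (v := fun ε => y - x + ε • (b - a)) (mP (show (ε, t) ∈ _ from ⟨hε, sub ht⟩)).1
        (mP (show (ε, t) ∈ _ from ⟨hε, sub ht⟩)).2 (ln _ _ _) (ln _ _ _))).2
  simp only [len, e1]
  simpa [P] using this

end Pool.Agent.H.MP_78211a_gt
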