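import Pool.Agent.H.MP_78211a_gt.E

set_option autoImplicit false

namespace Pool.Agent.H.MP_78211a_gt

open Set Filter Topology Real MeasureTheory

variable {M : Set V} {Φ : V × V → ℝ} {d : V → V → ℝ}

theorem F0.cD (h : F0 M Φ) {x v : V} (hv : v ≠ 0) (q : V × V) :
    ContinuousOn (fun s : ℝ => D1 Φ (x + s • v, v) q) {s : ℝ | x + s • v ∈ M} :=
  (h.cont1.comp (f := fun s : ℝ => (x + s • v, v)) (by fun_prop) fun _ hs => ⟨hs, hv⟩).clm_apply
    continuousOn_const

theorem Ch.el (h : Ch M Φ d) (x : V) (hx : x ∈ M) (v : V) (hv : v ≠ 0) (w : V) :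
    D2 Φ (x, v) (v, 0) (0, w) = D1 Φ (x, v) (w, 0) := by
  obtain ⟨δ, d0, mem, hl⟩ := h.loc hx hv
  obtain ⟨η, e0, ad⟩ := h.ad x hx v hv
  set g := fun s : ℝ => D1 Φ (x + s • v, v) (w, 0)
  set k := fun s : ℝ => D1 Φ (x + s • v, v) (0, w)
  have x0 : x + (0:ℝ) • v ∈ M := by simpa using hx
  set G := fun t => ∫ s in (0:ℝ)..t, g s
  have dG : ∀ t, x + t • v ∈ M → HasDerivAt G (g t) t := fun t ht =>
    prim (h.oU x v) (h.cD hv _) (h.iU x0 ht)
  have cm : ContinuousOn (fun s => k s - G s) {s : ℝ | x + s • v ∈ M} :=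
    (h.cD hv _).sub fun t ht => (dG t ht).continuousAt.continuousWithinAt
  set H := fun t => ∫ s in (0:ℝ)..t, (k s - G s)
  have dH : ∀ t, x + t • v ∈ M → HasDerivAt H (k t - G t) t := fun t ht =>
    prim (h.oU x v) cm (h.iU x0 ht)
  have I : ∀ a b p q : ℝ, x + a • v ∈ M → x + b • v ∈ M → a < b →
      HasDerivAt (fun ε : ℝ => len Φ (x + a • v + ε • p • w) (x + b • v + ε • q • w))
        (q * G b - p * G a + (q - p) * ((H b - H a) / (b - a))) 0 := by
    intro a b p q ha hb ab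
    have ba : 0 < b - a := sub_pos.2 ab
    have e : x + b • v - (x + a • v) = (b - a) • v := by module
    refine (h.fv ha hb (by rw [e]; exact smul_ne_zero ba.ne' hv) _ _).congr_deriv ?_
    have mm : ∀ t ∈ uIcc (0:ℝ) 1, x + (a + t * (b - a)) • v ∈ M := fun t ht => by
      have := h.seg ha hb (t := t) (by simpa using ht)
      rwa [e, show x + a • v + t • (b - a) • v = x + (a + t * (b - a)) • v by module] at this
    have dl : ∀ t : ℝ, HasDerivAt (fun t => a + t * (b - a)) (b - a) t := fun t => by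
      simpa using ((hasDerivAt_id t).mul_const (b - a)).const_add a
    have dp : ∀ t : ℝ, HasDerivAt (fun t => p + t * (q - p)) (q - p) t := fun t => by
      simpa using ((hasDerivAt_id t).mul_const (q - p)).const_add p
    have cc : ∀ {f : ℝ → ℝ}, ContinuousOn f {s : ℝ | x + s • v ∈ M} →
        ContinuousOn (fun t => f (a + t * (b - a))) (uIcc 0 1) := fun hf =>
      hf.comp (by fun_prop) mm
    have := intervalIntegral.integral_eq_sub_of_hasDerivAt
      (f := fun t => (p + t * (q - p)) * G (a + t * (b - a)) +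
        (q - p) * (H (a + t * (b - a)) / (b - a)))
      (f' := fun t => (p + t * (q - p)) * (b - a) * g (a + t * (b - a)) +
        (q - p) * k (a + t * (b - a))) (a := 0) (b := 1) (fun t ht => by
          refine (((dp t).mul ((dG _ (mm t ht)).comp t (dl t))).add
            ((((dH _ (mm t ht)).comp t (dl t)).div_const _).const_mul _)).congr_deriv ?_
          simp only [Function.comp]
          field_simp; ring)
      (ContinuousOn.intervalIntegrable ((ContinuousOn.mul (by fun_prop) (cc (h.cD hv _))).add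
        (continuousOn_const.mul (cc (h.cD hv _)))))
    simp only [one_mul, zero_mul, add_zero, add_sub_cancel] at this
    refine Eq.trans (intervalIntegral.integral_congr fun t ht => ?_) (this.trans (by ring))
    rw [e, show x + a • v + t • (b - a) • v = x + (a + t * (b - a)) • v by module,
      show p • w + t • (q • w - p • w) = (p + t * (q - p)) • w by module,
      show q • w - p • w = (q - p) • w by module, D1_split, D1_l, D1_r,
      h.homl (mm t ht) hv ba.ne', h.homr (mm t ht) hv ba, abs_of_pos ba]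
    ring
  set ρ := min δ η
  have r0 : 0 < ρ := by positivity
  have r1 : ρ ≤ δ := min_le_left _ _
  have r2 : ρ ≤ η := min_le_right _ _
  have key : ∀ c ∈ Ioo (-ρ / 4) ρ, H c = H (-ρ / 4) + (c + ρ / 4) *
      ((H (-ρ / 4) - H (-ρ / 2)) / (-ρ / 4 - -ρ / 2)) := by
    intro c hc
    have ma := mem (-ρ / 2) (by linarith) (by linarith)
    have mb := mem (-ρ / 4) (by linarith) (by linarith)
    have mc := mem c (by linarith [hc.1]) (by linarith [hc.2])
    have dd := (I _ _ 0 1 ma mb (by linarith)).add (I _ _ 1 0 mb mc hc.1)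
    have := IsLocalMin.hasDerivAt_eq_zero (by
      filter_upwards [ln_ev h.op mb w] with ε hε
      simp only [Pi.add_apply, zero_smul, smul_zero, add_zero, one_smul]
      rw [← hl _ _ (by linarith) (by linarith) (by linarith),
        ← hl _ _ (by linarith) hc.1.le (by linarith [hc.2]),
        ← ad _ _ _ (by linarith) (by linarith) hc.1.le (by linarith [hc.2])]
      linarith [h.tr _ ma _ hε _ mc, h.up _ ma _ hε, h.up _ hε _ mc]) dd
    have p : 0 < c - -ρ / 4 := sub_pos.2 hc.1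
    have : (H c - H (-ρ / 4)) / (c - -ρ / 4) = (H (-ρ / 4) - H (-ρ / 2)) / (-ρ / 4 - -ρ / 2) := by
      linarith
    rw [← this, show c + ρ / 4 = c - -ρ / 4 by ring, mul_div_cancel₀ _ p.ne']
    ring
  have nb : Ioo (-ρ / 4) ρ ∈ 𝓝 (0:ℝ) := Ioo_mem_nhds (by linarith) r0
  have k2 : ∀ c ∈ Ioo (-ρ / 4) ρ, k c - G c = (H (-ρ / 4) - H (-ρ / 2)) / (-ρ / 4 - -ρ / 2) := by
    intro c hc
    refine (dH c (mem c (by linarith [hc.1]) (by linarith [hc.2]))).unique ?_
    refine HasDerivAt.congr_of_eventuallyEq ?_ (by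
      filter_upwards [Ioo_mem_nhds hc.1 hc.2] with s hs using key s hs)
    simpa using (((hasDerivAt_id c).add_const (ρ / 4)).mul_const _).const_add (H (-ρ / 4))
  have d1 := (h.crv2 (x := fun s => x + s • v) (v := fun _ => v) (t := 0) x0 hv (ln x v 0)
    (hasDerivAt_const _ _) (hasDerivAt_const _ ((0, w) : V × V))).sub (dG 0 x0)
  have := d1.unique ((hasDerivAt_const (0:ℝ) _).congr_of_eventuallyEq (by
    filter_upwards [nb] with s hs using k2 s hs))
  have z : D1 Φ (x, v) 0 = 0 := map_zero _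
  simp only [g, zero_smul, add_zero, z] at this
  linarith

theorem Ch.fv2 (h : Ch M Φ d) {x y : V} (hx : x ∈ M) (hy : y ∈ M) (hn : y - x ≠ 0) (a b : V) :
    HasDerivAt (fun ε : ℝ => len Φ (x + ε • a) (y + ε • b))
      (D1 Φ (y, y - x) (0, b) - D1 Φ (x, y - x) (0, a)) 0 := by
  refine (h.fv hx hy hn a b).congr_deriv ?_
  have mm : ∀ t ∈ uIcc (0:ℝ) 1, x + t • (y - x) ∈ M := fun t ht => h.seg hx hy (by simpa using ht)
  have := intervalIntegral.integral_eq_sub_of_hasDerivAt
    (f := fun t : ℝ => D1 Φ (x + t • (y - x), y - x) (0, a + t • (b - a)))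
    (f' := fun t : ℝ => D1 Φ (x + t • (y - x), y - x) (a + t • (b - a), b - a)) (a := 0) (b := 1)
    (fun t ht => by
      refine (h.crv2 (x := fun s => x + s • (y - x)) (v := fun _ => y - x) (mm t ht) hn (ln _ _ t)
        (hasDerivAt_const _ _) ((hasDerivAt_const t (0:V)).prodMk (ln a (b - a) t))).congr_deriv ?_
      rw [h.el _ (mm t ht) _ hn, ← D1_split])
    (ContinuousOn.intervalIntegrable ((h.cont1.comp (f := fun s : ℝ => (x + s • (y - x), y - x))
      (by fun_prop) fun t ht => ⟨mm t ht, hn⟩).clm_apply (by fun_prop)))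
  simpa using this

theorem Ch.mp (h : Ch M Φ d) {x v w : V} (hx : x ∈ M) (hv : v ≠ 0)
    (hp : ∀ᶠ s in 𝓝 (0:ℝ), ∀ᶠ t in 𝓝 (0:ℝ), d (x + s • v) x ≤ d (x + s • v) (x + t • w)) :
    D1 Φ (x, v) (0, w) = 0 := by
  obtain ⟨δ, d0, mem, hl⟩ := h.loc hx hv
  obtain ⟨s, h1, h2⟩ := ((hp.filter_mono nhdsWithin_le_nhds).and
    (Ioo_mem_nhdsLT (show -δ < 0 by linarith))).exists
  have ms := mem s h2.1 (by linarith [h2.2])
  have e : x - (x + s • v) = (-s) • v := by module
  have s0 : 0 < -s := neg_pos.2 h2.2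
  have dd := h.fv2 ms hx (by rw [e]; exact smul_ne_zero s0.ne' hv) 0 w
  have := IsLocalMin.hasDerivAt_eq_zero (by
    filter_upwards [h1, ln_ev h.op hx w] with t a b
    have := hl s 0 h2.1 h2.2.le d0
    simp only [zero_smul, smul_zero, add_zero] at this ⊢
    linarith [h.up _ ms _ b]) dd
  have z : ∀ p, D1 Φ p (0, 0) = 0 := fun p => map_zero _
  rwa [z, sub_zero, e, h.homr hx hv s0] at this

theorem Ch.lb (h : Ch M Φ d) {x v b : V} (hx : x ∈ M) (hv : v ≠ 0) {ρ : V → ℝ}
    (hρ : ∃ᶠ s in 𝓝[>] (0:ℝ), ∀ y ∈ M, ρ x + d x (x + s • v) ≤ ρ y + d y (x + s • v))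
    (hb : 0 < D1 Φ (x, v) (0, b)) : ∀ᶠ t in 𝓝[>] (0:ℝ), ρ x < ρ (x + t • b) := by
  obtain ⟨δ, d0, mem, hl⟩ := h.loc hx hv
  obtain ⟨s, h1, h2⟩ := (hρ.and_eventually (Ioo_mem_nhdsGT d0)).exists
  have ms := mem s (by linarith [h2.1]) h2.2
  have e : x + s • v - x = s • v := by module
  have dd := h.fv2 hx ms (by rw [e]; exact smul_ne_zero h2.1.ne' hv) b 0
  have z : ∀ p, D1 Φ p (0, 0) = 0 := fun p => map_zero _
  rw [z, zero_sub, e, h.homr hx hv h2.1] at dd
  have T := (hasDerivAt_iff_tendsto_slope.1 dd).mono_left (nhdsGT_le_nhdsNE 0)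
  filter_upwards [T.eventually (gt_mem_nhds (neg_neg_iff_pos.2 hb)), self_mem_nhdsWithin,
    (ln_ev h.op hx b).filter_mono nhdsWithin_le_nhds] with t a1 a2 a3
  rw [slope_def_field, div_lt_iff₀ (by simpa using a2)] at a1
  have := hl 0 s (by linarith) h2.1.le h2.2
  simp only [zero_smul, smul_zero, add_zero, zero_mul] at this a1
  linarith [h1 _ a3, h.up _ a3 _ ms]

theorem F1.len_cont (h : F1 M Φ) {x : V} (hx : x ∈ M) (v : V) :
    Tendsto (fun s : ℝ => len Φ x (x + s • v)) (𝓝[>] 0) (𝓝 0) := by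
  have x0 : x + (0:ℝ) • v ∈ M := by simpa using hx
  have := (prim (h.oU x v) (h.cg x v) (h.iU x0 x0)).continuousAt.tendsto
  rw [intervalIntegral.integral_same] at this
  refine (this.mono_left nhdsWithin_le_nhds).congr' ?_
  filter_upwards [self_mem_nhdsWithin, (ln_ev h.op hx v).filter_mono nhdsWithin_le_nhds] with s a b
  rw [← h.len_eq x0 b (le_of_lt a)]; simp

end Pool.Agent.H.MP_78211a_gt
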