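import Pool.Agent.H.MP_78211a_gt.F

set_option autoImplicit false

namespace Pool.Agent.H.MP_78211a_gt

open Set Filter Topology Real MeasureTheory

variable {M : Set V} {Φ : V × V → ℝ} {d : V → V → ℝ}

theorem seg_mem (x v : V) {a b c : ℝ} (h1 : a ≤ b) (h2 : b ≤ c) :
    x + b • v ∈ segment ℝ (x + a • v) (x + c • v) := by
  have : b ∈ segment ℝ a c := by rw [segment_eq_Icc (h1.trans h2)]; exact ⟨h1, h2⟩
  obtain ⟨p, q, hp, hq, e, rfl⟩ := this
  refine ⟨p, q, hp, hq, e, ?_⟩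
  rw [show p • (x + a • v) + q • (x + c • v) = (p + q) • x + (p • a + q • c) • v by
    simp only [smul_eq_mul]; module, e, one_smul]

theorem F0.xi_sc (h : F0 M Φ) {x v w : V} (hx : x ∈ M) (hv : v ≠ 0) {c : ℝ} (hc : c ≠ 0)
    (z : D1 Φ (x, v) (0, w) = 0) : D1 Φ (x, c • v) (0, w) = 0 := by
  have := h.homD hx hv hc 0 w
  rw [D1_r, z, mul_zero] at this
  exact (mul_eq_zero.1 this).resolve_left hc

theorem F0.xi_pos (h : F0 M Φ) {x v w : V} (hx : x ∈ M) (hv : v ≠ 0)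
    (z : D1 Φ (x, v) (0, w) = 0) (t : ℝ) {ε : ℝ} (e0 : 0 < ε) :
    0 < D1 Φ (x, v) (0, t • w + ε • v) := by
  rw [show ((0, t • w + ε • v) : V × V) = (0, t • w) + (0, ε • v) by simp, D1_add, D1_r, D1_r, z,
    h.euler hx hv]
  have := h.pos x hx v hv
  nlinarith

structure Af (M : Set V) (Φ : V × V → ℝ) (d : V → V → ℝ) : Prop extends F1 M Φ where
  sy : ∀ x ∈ M, ∀ y ∈ M, d x y = d y x
  z0 : ∀ x ∈ M, ∀ y ∈ M, d x y = 0 ↔ x = y
  tr : ∀ x ∈ M, ∀ y ∈ M, ∀ z ∈ M, d x z ≤ d x y + d y z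
  cp : ∀ u : ℕ → V, (∀ n, u n ∈ M) → (∀ ε > 0, ∃ N, ∀ m ≥ N, ∀ n ≥ N, d (u m) (u n) < ε) →
    ∃ x ∈ M, Tendsto (fun n => d x (u n)) atTop (𝓝 0)
  ad : ∀ x ∈ M, ∀ z ∈ M, ∀ y ∈ segment ℝ x z, d x y + d y z = d x z
  cb : ∀ x ∈ M, ∀ r, Convex ℝ {y ∈ M | d x y ≤ r}
  gl : ∀ x ∈ M, ∀ y ∈ M, IsGLB {l | ∃ γ : ℝ → V, ContDiff ℝ 1 γ ∧ (∀ t ∈ Icc (0:ℝ) 1, γ t ∈ M) ∧
    γ 0 = x ∧ γ 1 = y ∧ l = ∫ t in (0:ℝ)..1, Φ (γ t, deriv γ t)} (d x y)
  sp : ∀ p ∈ M, ∀ v w : V, v ≠ 0 → w ≠ 0 →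
    (∀ s t : ℝ, p + s • v ∈ M → p + t • w ∈ M → d (p + s • v) p ≤ d (p + s • v) (p + t • w)) →
    ∀ s t : ℝ, p + s • w ∈ M → p + t • v ∈ M → d (p + s • w) p ≤ d (p + s • w) (p + t • v)

theorem Af.nd (h : Af M Φ d) {x y : V} (hx : x ∈ M) (hy : y ∈ M) : 0 ≤ d x y := by
  have := h.tr x hx y hy x hx
  rw [(h.z0 x hx x hx).2 rfl, h.sy y hy x hx] at this
  linarith

theorem Af.lo (h : Af M Φ d) {y : V} (hy : y ∈ M) {κ : ℝ} (k0 : 0 ≤ κ) (k1 : κ < 1) :
    ∃ ρ > 0, ∀ z ∈ M, κ * min (Φ (y, z - y)) ρ ≤ d y z := by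
  obtain ⟨ρ, r0, hρ⟩ := h.tube hy k1
  refine ⟨ρ, r0, fun z hz => (h.gl y hy z hz).2 ?_⟩
  rintro l ⟨γ, c1, m, g0, g1, rfl⟩
  have cγ := c1.continuous
  have cd : Continuous (deriv γ) := c1.continuous_deriv le_rfl
  have cN := h.cN hy
  have := fence (N := fun v => Φ (y, v)) cN (h.hom y hy) (h.tri y hy)
    (m := fun t => min (Φ (y, γ t - y)) ρ) (B := fun t => ∫ s in (0:ℝ)..t, Φ (γ s, deriv γ s))
    (B' := fun s => Φ (γ s, deriv γ s)) (ρ := ρ) (y := y) k0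
    (((cN.comp (cγ.sub continuous_const)).min continuous_const).continuousOn)
    (by simp [g0, h.zero hy, r0.le]) (fun _ _ => min_le_right _ _)
    (fun t ht => prim (U := γ ⁻¹' M) (h.op.preimage cγ)
      (h.ct.comp (f := fun s => (γ s, deriv γ s)) (by fun_prop) fun _ hs => ⟨hs, trivial⟩)
      fun s hs => m s (by rw [uIcc_of_le ht.1] at hs; exact ⟨hs.1, hs.2.trans ht.2⟩))
    (fun t ht => h.nn (m t ht) _) (fun t ht hlt => by
      have a : Φ (y, γ t - y) < ρ := (min_lt_iff.1 hlt).resolve_right (lt_irrefl _)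
      exact ⟨γ, deriv γ t, (c1.differentiable one_ne_zero t).hasDerivAt, min_eq_left a.le,
        Eventually.of_forall fun _ => min_le_left _ _, (hρ _ a).2 _⟩)
  simpa [g1] using this

theorem lo_of (h : F1 M Φ) (nd : ∀ x ∈ M, ∀ y ∈ M, 0 ≤ d x y) (lo : ∀ y ∈ M, ∀ κ : ℝ, 0 ≤ κ → κ < 1 →
    ∃ ρ > 0, ∀ z ∈ M, κ * min (Φ (y, z - y)) ρ ≤ d y z) :
    ∀ y ∈ M, ∀ κ < 1, ∀ᶠ z in 𝓝 y, κ * Φ (y, z - y) ≤ d y z := by
  intro y hy κ k1
  rcases le_total κ 0 with k0 | k0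
  · filter_upwards [h.op.mem_nhds hy] with z hz
    exact (mul_nonpos_of_nonpos_of_nonneg k0 (h.nn hy _)).trans (nd y hy z hz)
  obtain ⟨ρ, r0, hρ⟩ := lo y hy κ k0 k1
  have : ∀ᶠ z in 𝓝 y, Φ (y, z - y) < ρ :=
    ContinuousAt.eventually_lt (f := fun z => Φ (y, z - y)) (g := fun _ => ρ)
      ((h.cN hy).comp (continuous_id.sub continuous_const)).continuousAt continuousAt_const
      (by simpa [h.zero hy] using r0)
  filter_upwards [this, h.op.mem_nhds hy] with z a b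
  have := hρ z b
  rwa [min_eq_left a.le] at this

theorem Af.ch (h : Af M Φ d) : Ch M Φ d where
  toF1 := h.toF1
  nd := fun _ hx _ hy => h.nd hx hy
  tr := h.tr
  up := fun x hx y hy => (h.gl x hx y hy).1 ⟨fun t => x + t • (y - x), by fun_prop,
    fun t ht => h.seg hx hy ht, by simp, by simp, by simp only [len, (ln x (y - x) _).deriv]⟩
  lo := lo_of h.toF1 (fun _ hx _ hy => h.nd hx hy) fun _ hy _ k0 k1 => h.lo hy k0 k1
  ad := fun x hx v _ => by
    obtain ⟨η, e0, he⟩ := Metric.eventually_nhds_iff.1 (ln_ev h.op hx v)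
    have mem : ∀ a : ℝ, -η < a → a < η → x + a • v ∈ M := fun a h1 h2 => he (by
      rw [Real.dist_eq, sub_zero, abs_lt]; exact ⟨h1, h2⟩)
    exact ⟨η, e0, fun a b c h1 h2 h3 h4 => (h.ad _ (mem a h1 (by linarith)) _
      (mem c (by linarith) h4) _ (seg_mem x v h2 h3)).symm⟩

theorem Af.tp (h : Af M Φ d) {x v w : V} (hx : x ∈ M) (hv : v ≠ 0)
    (z : D1 Φ (x, v) (0, w) = 0) (s t : ℝ) (hs : x + s • v ∈ M) (ht : x + t • w ∈ M) :
    d (x + s • v) x ≤ d (x + s • v) (x + t • w) := by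
  by_cases s0 : s = 0
  · subst s0
    simp only [zero_smul, add_zero, (h.z0 x hx x hx).2 rfl]
    exact h.nd hx ht
  by_contra hn
  push Not at hn
  set u := (-s) • v
  have hu : u ≠ 0 := smul_ne_zero (neg_ne_zero.2 s0) hv
  have zu := h.xi_sc hx hv (neg_ne_zero.2 s0) z
  obtain ⟨ε, ⟨e1, e2⟩, e0⟩ := (((h.len_cont ht u).eventually (gt_mem_nhds (sub_pos.2 hn))).and
    ((ln_ev h.op ht u).filter_mono nhdsWithin_le_nhds) |>.and self_mem_nhdsWithin).exists
  have lb := h.ch.lb (ρ := d (x + s • v)) (b := t • w + ε • u) hx hu (by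
    apply Eventually.frequently
    filter_upwards [self_mem_nhdsWithin, (ln_ev h.op hx u).filter_mono nhdsWithin_le_nhds]
      with σ a b y hy
    have := seg_mem x u (a := -1) (b := 0) (c := σ) (by norm_num) (le_of_lt a)
    rw [show x + (-1:ℝ) • u = x + s • v by simp [u], zero_smul, add_zero] at this
    rw [h.ad _ hs _ b _ this]
    exact h.tr _ hs _ hy _ b) (h.xi_pos hx hu zu t e0)
  obtain ⟨τ, a1, a2⟩ := (lb.and (Ioo_mem_nhdsGT zero_lt_one)).exists
  have := (h.cb _ hs (d (x + s • v) x)).add_smul_sub_mem (x := x) (y := x + t • w + ε • u)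
    ⟨hx, le_rfl⟩ ⟨e2, by linarith [h.tr _ hs _ ht _ e2, h.ch.up _ ht _ e2]⟩
    (Ioo_subset_Icc_self a2)
  rw [show x + t • w + ε • u - x = t • w + ε • u by abel] at this
  linarith [this.2]

theorem Af.fs (h : Af M Φ d) : FS M Φ where
  toF0 := h.toF0
  el := h.ch.el
  sy := fun x hx v hv w hw z => h.ch.mp hx hw (by
    filter_upwards [ln_ev h.op hx w] with s hs
    filter_upwards [ln_ev h.op hx v] with t ht
    exact h.sp x hx v w hv hw (h.tp hx hv z) s t hs ht)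

theorem Af.unb (h : Af M Φ d) {x z : V} (hx : x ∈ M) (hz : z ≠ 0) (C : ℝ) :
    ∃ t : ℝ, 0 ≤ t ∧ x + t • z ∈ M ∧ C < d x (x + t • z) := by
  by_contra hn
  push Not at hn
  set S := {t : ℝ | 0 ≤ t ∧ x + t • z ∈ M}
  set D := fun t : ℝ => d x (x + t • z)
  have bd : BddAbove (D '' S) := ⟨C, by rintro _ ⟨t, ht, rfl⟩; exact hn t ht.1 ht.2⟩
  have ne : (D '' S).Nonempty := ⟨_, 0, ⟨le_rfl, by simpa using hx⟩, rfl⟩
  have ad : ∀ s ∈ S, ∀ t ∈ S, s ≤ t → D s + d (x + s • z) (x + t • z) = D t := fun s hs t ht st => by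
    have := seg_mem x z hs.1 st
    rw [zero_smul, add_zero] at this
    exact h.ad _ hx _ ht.2 _ this
  obtain ⟨u, -, hu, mu⟩ := exists_seq_tendsto_sSup ne bd
  choose t ht e using mu
  obtain ⟨p, hp, T⟩ := h.cp (fun n => x + t n • z) (fun n => (ht n).2) (fun ε e0 => by
    obtain ⟨N, hN⟩ := Metric.cauchySeq_iff.1 hu.cauchySeq ε e0
    refine ⟨N, fun m hm n hn => lt_of_le_of_lt ?_ (hN m hm n hn)⟩
    rw [Real.dist_eq, ← e, ← e]
    rcases le_total (t m) (t n) with a | a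
    · rw [← ad _ (ht m) _ (ht n) a, abs_sub_comm]; simp [le_abs_self]
    · rw [← ad _ (ht n) _ (ht m) a, h.sy _ (ht m).2 _ (ht n).2]; simp [le_abs_self])
  obtain ⟨ρ, r0, hρ⟩ := h.lo hp (κ := 1 / 2) (by norm_num) (by norm_num)
  obtain ⟨c, c0, hc⟩ := h.cmp hp
  have T2 : Tendsto (fun n => x + t n • z) atTop (𝓝 p) := by
    rw [tendsto_iff_norm_sub_tendsto_zero]
    refine squeeze_zero' (Eventually.of_forall fun _ => norm_nonneg _) ?_
      (by simpa using T.const_mul (2 / c))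
    filter_upwards [T.eventually (gt_mem_nhds (half_pos r0))] with n hn
    have a := hρ _ (ht n).2
    have b := hc (x + t n • z - p)
    rw [div_mul_eq_mul_div, le_div_iff₀ c0]
    rcases min_cases (Φ (p, x + t n • z - p)) ρ with ⟨e, -⟩ | ⟨e, -⟩ <;> rw [e] at a <;> linarith
  have cl : IsClosed ((fun s : ℝ => x + s • z) '' Ici 0) :=
    ((Homeomorph.addLeft x).isClosedEmbedding.comp (isClosedEmbedding_smul_left hz)).isClosedMap _
      isClosed_Ici
  obtain ⟨s, s0, rfl⟩ := cl.mem_of_tendsto T2 (Eventually.of_forall fun n => ⟨t n, (ht n).1, rfl⟩)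
  have le : sSup (D '' S) ≤ D s := by
    refine le_of_tendsto_of_tendsto' hu (by simpa using T.const_add (D s)) fun n => ?_
    rw [← e]
    exact h.tr _ hx _ hp _ (ht n).2
  obtain ⟨η, a, e0⟩ := (((ln_ev h.op hp z).filter_mono nhdsWithin_le_nhds).and
    (self_mem_nhdsWithin (s := Ioi 0))).exists
  have e0' : 0 < η := e0
  rw [add_assoc, ← add_smul] at a
  have s0' : 0 ≤ s := s0
  have m2 : s + η ∈ S := ⟨by linarith, a⟩
  have := ad s ⟨s0, hp⟩ _ m2 (by linarith)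
  have le2 : D (s + η) ≤ sSup (D '' S) := le_csSup bd ⟨_, m2, rfl⟩
  have := (h.z0 _ hp _ a).1 (le_antisymm (by linarith) (h.nd hp a))
  have := smul_left_injective ℝ hz (add_left_cancel this)
  linarith

theorem Af.main (h : Af M Φ d) (ne : M.Nonempty) : (∀ x ∈ M, Euc Φ x) ∨
    (M = univ ∧ ∀ x y, d x y = Φ (0, y - x)) := by
  refine h.fs.dich.imp_right fun hf => ?_
  obtain ⟨x, hx⟩ := ne
  obtain ⟨l, h1, h2⟩ := hf x hx
  have bd : ∀ z, ∀ t : ℝ, 0 ≤ t → x + t • z ∈ M →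
      d x (x + t • z) ≤ Φ (x, z) * (t / (1 + t * l z)) := by
    intro z t t0 ht
    have x0 : x + (0:ℝ) • z ∈ M := by simpa using hx
    have u := h.ch.up _ x0 _ ht
    rw [h.len_eq x0 ht t0, zero_smul, add_zero] at u
    refine u.trans_eq ?_
    have := intervalIntegral.integral_eq_sub_of_hasDerivAt
      (f := fun s => Φ (x, z) * (s / (1 + s * l z))) (f' := fun s => Φ (x + s • z, z))
      (a := 0) (b := t) (fun s hs => by
        have m := h.iU x0 ht hs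
        obtain ⟨a, b⟩ := h1 _ m
        rw [add_sub_cancel_left, map_smul, smul_eq_mul] at a b
        refine ((((hasDerivAt_id s).div (((hasDerivAt_id s).mul_const (l z)).const_add 1)
          a.ne')).const_mul _).congr_deriv ?_
        by_cases s0 : s = 0
        · simp [s0]
        rw [h.hom _ m, h.hom _ hx, mul_assoc] at b
        rw [← mul_left_cancel₀ (abs_ne_zero.2 s0) b]
        simp only [id]
        field_simp; ring) ((h.cg x z).mono (h.iU x0 ht)).intervalIntegrable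
    simpa using this
  have l1 : ∀ z, l z ≤ 0 := fun z => by
    by_contra hn
    push Not at hn
    obtain ⟨t, t0, ht, hC⟩ := h.unb hx (z := z) (by rintro rfl; simp at hn) (Φ (x, z) * (l z)⁻¹)
    have := bd z t t0 ht
    have : Φ (x, z) * (t / (1 + t * l z)) ≤ Φ (x, z) * (l z)⁻¹ := by
      gcongr
      · exact h.nn hx z
      · rw [div_le_iff₀ (by positivity)]
        field_simp; linarith
    linarith
  have l0 : l = 0 := ContinuousLinearMap.ext fun z =>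
    le_antisymm (l1 z) (by have := l1 (-z); rw [map_neg] at this; simpa using this)
  have U : M = univ := eq_univ_of_forall fun y => by
    by_cases hz : y - x = 0
    · rwa [sub_eq_zero.1 hz]
    obtain ⟨t, t0, ht, hC⟩ := h.unb hx hz (Φ (x, y - x))
    have := bd _ t t0 ht
    simp only [l0, ContinuousLinearMap.zero_apply, mul_zero, add_zero, div_one] at this
    have p := h.pos x hx _ hz
    have := h.iU (a := 0) (by simpa using hx) ht (show (1:ℝ) ∈ _ by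
      rw [uIcc_of_le t0]; exact ⟨zero_le_one, by nlinarith⟩)
    simpa using this
  subst U
  refine ⟨rfl, fun a b => ?_⟩
  have := h.ch.eqlen (x := a) (v := b - a) (a := 0) (b := 1) trivial trivial zero_le_one
    fun s t h1 h2 _ => (h.ad _ trivial _ trivial _ (seg_mem _ _ h1 h2)).symm
  simp only [zero_smul, add_zero, one_smul, add_sub_cancel] at this
  simp [this, len, h2 l0]

end Pool.Agent.H.MP_78211a_gt
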