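import Pool.Agent.H.MP_78211a_gt.G

set_option autoImplicit false

namespace Pool.Agent.H.MP_78211a_gt

open Set Filter Topology Real MeasureTheory

abbrev E3 := Fin 3 → ℝ

abbrev PP := Projectivization ℝ E3

structure El (F : E3 × E3 → ℝ) (d : PP → PP → ℝ) (L : ℝ) : Prop where
  sy : ∀ p q, d p q = d q p
  z0 : ∀ p q, d p q = 0 ↔ p = q
  tr : ∀ p q r, d p r ≤ d p q + d q r
  L0 : 0 < L
  ln : ∀ W : Submodule ℝ E3, Module.finrank ℝ W = 2 → ∃ f : AddCircle L → PP,
    (∀ a b, d (f a) (f b) = dist a b) ∧ range f = {p | p.submodule ≤ W}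
  cb : ∀ o, ∀ r < L / 2, ∃ l : E3 →ₗ[ℝ] ℝ, (∀ p, d o p ≤ r → ¬ p.submodule ≤ LinearMap.ker l) ∧
    Convex ℝ {X | l X = 1 ∧ ∃ p, X ∈ p.submodule ∧ d o p ≤ r}
  ct : ContinuousOn F ({0}ᶜ ×ˢ univ)
  sm : ContDiffOn ℝ 2 F {q | LinearIndependent ℝ ![q.1, q.2]}
  pos : ∀ X U, LinearIndependent ℝ ![X, U] → 0 < F (X, U)
  hom : ∀ X, X ≠ 0 → ∀ (c : ℝ) U, F (X, c • U) = |c| * F (X, U)
  tri : ∀ X, X ≠ 0 → ∀ U T, F (X, U + T) ≤ F (X, U) + F (X, T)
  inv : ∀ X, X ≠ 0 → ∀ (a b : ℝ) U, a ≠ 0 → F (a • X, a • U + b • X) = F (X, U)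
  gl : ∀ p q, IsGLB {l | ∃ γ : ℝ → E3, ContDiff ℝ 1 γ ∧ (∀ t ∈ Icc (0:ℝ) 1, γ t ≠ 0) ∧
    γ 0 ∈ p.submodule ∧ γ 1 ∈ q.submodule ∧ l = ∫ t in (0:ℝ)..1, F (γ t, deriv γ t)} (d p q)
  sp : ∀ W W' : Submodule ℝ E3, Module.finrank ℝ W = 2 → Module.finrank ℝ W' = 2 →
    ∀ p : PP, p.submodule ≤ W → p.submodule ≤ W' →
    (∀ o q : PP, o.submodule ≤ W' → q.submodule ≤ W → d o p ≤ d o q) →
    ∀ o q : PP, o.submodule ≤ W → q.submodule ≤ W' → d o p ≤ d o q

variable {F : E3 × E3 → ℝ} {d : PP → PP → ℝ} {L : ℝ} (A : (V × ℝ) ≃L[ℝ] E3)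

theorem cv_ne (x : V) : A (x, 1) ≠ 0 := by simp

theorem li (x : V) {v : V} (hv : v ≠ 0) : LinearIndependent ℝ ![A (x, 1), A (v, 0)] :=
  (LinearIndependent.pair_iff' (cv_ne A x)).2 fun a e => by
    rw [← map_smul] at e
    have := A.injective e
    simp only [Prod.smul_mk, smul_eq_mul, mul_one, Prod.mk.injEq] at this
    exact hv (by rw [← this.1, this.2, zero_smul])

noncomputable def cc (x : V) : PP := Projectivization.mk ℝ (A (x, 1)) (cv_ne A x)

noncomputable def Ph (F : E3 × E3 → ℝ) (q : V × V) : ℝ := F (A (q.1, 1), A (q.2, 0))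

theorem cv_add (x v : V) (s : ℝ) : A (x + s • v, 1) = A (x, 1) + s • A (v, 0) := by
  rw [← map_smul, ← map_add]; simp

theorem eq_mk {p : PP} {X : E3} (hX : X ≠ 0) (h : X ∈ p.submodule) :
    p = Projectivization.mk ℝ X hX := by
  rw [p.submodule_eq, Submodule.mem_span_singleton] at h
  rw [← p.mk_rep, eq_comm, Projectivization.mk_eq_mk_iff']
  exact h

theorem mem_mk {X : E3} (hX : X ≠ 0) : X ∈ (Projectivization.mk ℝ X hX).submodule :=
  Submodule.mem_span_singleton_self X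

theorem mk_le {X : E3} (hX : X ≠ 0) {W : Submodule ℝ E3} :
    (Projectivization.mk ℝ X hX).submodule ≤ W ↔ X ∈ W := Submodule.span_singleton_le_iff_mem _ _

theorem El.nd (h : El F d L) (p q : PP) : 0 ≤ d p q := by
  have := h.tr p q p
  rw [(h.z0 p p).2 rfl, h.sy q p] at this
  linarith

theorem El.f1 (h : El F d L) : F1 univ (Ph A F) where
  op := isOpen_univ
  cv := convex_univ
  sm := h.sm.comp (f := fun q : V × V => (A (q.1, 1), A (q.2, 0))) (by fun_prop)
    fun q hq => li A q.1 hq.2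
  pos := fun x _ v hv => h.pos _ _ (li A x hv)
  hom := fun x _ c v => by
    simp only [Ph]
    rw [← h.hom _ (cv_ne A x), ← map_smul]; simp
  tri := fun x _ u v => by
    simp only [Ph]
    rw [show ((u + v, 0) : V × ℝ) = (u, 0) + (v, 0) by simp, map_add]
    exact h.tri _ (cv_ne A x) _ _
  ct := h.ct.comp (f := fun q : V × V => (A (q.1, 1), A (q.2, 0))) (by fun_prop)
    fun q _ => ⟨cv_ne A q.1, trivial⟩

theorem El.up0 (h : El F d L) {X Z : E3} {p q : PP} (hn : ∀ t ∈ Icc (0:ℝ) 1, X + t • Z ≠ 0)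
    (hp : X ∈ p.submodule) (hq : X + Z ∈ q.submodule) :
    d p q ≤ ∫ t in (0:ℝ)..1, F (X + t • Z, Z) := by
  refine (h.gl p q).1 ⟨fun t => X + t • Z, by fun_prop, hn, by simpa, by simpa, ?_⟩
  have : ∀ t : ℝ, deriv (fun t : ℝ => X + t • Z) t = Z := fun t =>
    HasDerivAt.deriv (by simpa using ((hasDerivAt_id t).smul_const Z).const_add X)
  simp only [this]

theorem El.up (h : El F d L) (x y : V) : d (cc A x) (cc A y) ≤ len (Ph A F) x y := by
  have := h.up0 (X := A (x, 1)) (Z := A (y - x, 0)) (p := cc A x) (q := cc A y)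
    (fun t _ => by rw [← cv_add]; exact cv_ne A _) (mem_mk _) (by
      rw [← one_smul ℝ (A (y - x, 0)), ← cv_add, one_smul, add_sub_cancel]; exact mem_mk _)
  simpa only [len, Ph, cv_add] using this

theorem El.nn (h : El F d L) {X : E3} (hX : X ≠ 0) (U : E3) : 0 ≤ F (X, U) := by
  have a := h.tri X hX U ((-1:ℝ) • U)
  have b := h.hom X hX 0 U
  rw [h.hom X hX, show U + (-1:ℝ) • U = (0:ℝ) • U by module, b] at a
  simp at a
  linarith

theorem El.lo (h : El F d L) (y : V) {κ : ℝ} (k0 : 0 ≤ κ) (k1 : κ < 1) :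
    ∃ ρ > 0, ∀ z ∈ (univ : Set V), κ * min (Ph A F (y, z - y)) ρ ≤ d (cc A y) (cc A z) := by
  have f1 := h.f1 A
  obtain ⟨ρ, r0, hρ⟩ := f1.tube (mem_univ y) k1
  refine ⟨ρ, r0, fun z _ => (h.gl _ _).2 ?_⟩
  rintro l ⟨γ, c1, m, g0, g1, rfl⟩
  have cγ := c1.continuous
  have cd : Continuous (deriv γ) := c1.continuous_deriv le_rfl
  have cN := f1.cN (mem_univ y)
  set N := fun v => Ph A F (y, v) with hN
  have hh : ∀ (c : ℝ) v, N (c • v) = |c| * N v := f1.hom y trivial
  set g := fun t => (A.symm (γ t)).1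
  set a := fun t => (A.symm (γ t)).2
  have cg : Continuous g := by fun_prop
  have ca : Continuous a := by fun_prop
  have eγ : ∀ t, γ t = A (g t, a t) := fun t => by simp [g, a]
  set n := fun t => N (g t - a t • y)
  have n0 : ∀ t, 0 ≤ n t := fun t => f1.nn trivial _
  have mx : ∀ t ∈ Icc (0:ℝ) 1, 0 < max (n t) (ρ * |a t|) := fun t ht => by
    by_contra hn
    obtain ⟨b1, b2⟩ := max_le_iff.1 (not_lt.1 hn)
    have a0 : a t = 0 := abs_nonpos_iff.1 (by nlinarith [abs_nonneg (a t)])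
    have : g t = 0 := by
      by_contra e
      have := f1.pos y trivial _ e
      simp only [n, a0, zero_smul, sub_zero, N] at b1
      linarith
    exact m t ht (by rw [eγ, a0, this]; exact map_zero _)
  have np : ∀ s, a s ≠ 0 → n s = |a s| * N ((a s)⁻¹ • g s - y) := fun s hs => by
    rw [← hh, smul_sub, smul_smul, mul_inv_cancel₀ hs, one_smul]
  have := fence (N := N) cN hh (f1.tri y trivial)
    (m := fun t => ρ * n t / max (n t) (ρ * |a t|))
    (B := fun t => ∫ s in (0:ℝ)..t, F (γ s, deriv γ s))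
    (B' := fun s => F (γ s, deriv γ s)) (ρ := ρ) (y := y) k0
    (ContinuousOn.div (by fun_prop) (by fun_prop) fun t ht => (mx t ht).ne')
    (by
      obtain ⟨s, hs⟩ := Submodule.mem_span_singleton.1 g0
      have : n 0 = 0 := by
        simp only [n, g, a, ← hs, map_smul, ContinuousLinearEquiv.symm_apply_apply]
        simpa using f1.zero (mem_univ y)
      simp [this])
    (fun t ht => by
      rw [div_le_iff₀ (mx t ht)]
      gcongr; exact le_max_left _ _)
    (fun t ht => prim (U := γ ⁻¹' {0}ᶜ) (isOpen_compl_singleton.preimage cγ)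
      (h.ct.comp (f := fun s => (γ s, deriv γ s)) (by fun_prop) fun _ hs => ⟨hs, trivial⟩)
      fun s hs => m s (by rw [uIcc_of_le ht.1] at hs; exact ⟨hs.1, hs.2.trans ht.2⟩))
    (fun t ht => h.nn (m t ht) _) (fun t ht hlt => by
      have b : n t < ρ * |a t| := by
        rw [div_lt_iff₀ (mx t ht)] at hlt
        exact (lt_max_iff.1 (lt_of_mul_lt_mul_left hlt r0.le)).resolve_left (lt_irrefl _)
      have a0 : a t ≠ 0 := fun e => by
        have := n0 t
        rw [e] at b; simp at b; linarith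
      have ap := abs_pos.2 a0
      have dΓ := A.symm.hasFDerivAt.comp_hasDerivAt t (c1.differentiable one_ne_zero t).hasDerivAt
      have dg : HasDerivAt g (A.symm (deriv γ t)).1 t :=
        (ContinuousLinearMap.fst ℝ V ℝ).hasFDerivAt.comp_hasDerivAt t dΓ
      have da : HasDerivAt a (A.symm (deriv γ t)).2 t :=
        (ContinuousLinearMap.snd ℝ V ℝ).hasFDerivAt.comp_hasDerivAt t dΓ
      have e1 : N ((a t)⁻¹ • g t - y) < ρ := by
        rw [np t a0] at b; nlinarith
      refine ⟨fun s => (a s)⁻¹ • g s, _, (da.inv a0).smul dg, ?_, ?_, ((hρ _ e1).2 _).trans_eq ?_⟩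
      · rw [max_eq_right b.le, np t a0]; field_simp
      · filter_upwards [ca.continuousAt.eventually_ne a0] with s hs
        have ap := abs_pos.2 hs
        rw [div_le_iff₀ (lt_max_of_lt_right (by positivity))]
        have := f1.nn (mem_univ y) ((a s)⁻¹ • g s - y)
        calc _ = N ((a s)⁻¹ • g s - y) * (ρ * |a s|) := by rw [np s hs]; ring
          _ ≤ _ := by gcongr; exact le_max_right _ _
      · simp only [Ph]
        rw [← h.inv _ (cv_ne A _) (a t) (A.symm (deriv γ t)).2 _ a0, ← map_smul, ← map_smul,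
          ← map_smul, ← map_add]
        congr 2
        · rw [eγ]; congr 1; simp [smul_smul, a0]
        · rw [← A.apply_symm_apply (deriv γ t)]
          congr 1
          simp only [ContinuousLinearEquiv.symm_apply_apply, Pi.inv_apply]
          ext <;> simp <;> field_simp <;> ring)
  refine le_trans (le_of_eq ?_) this
  obtain ⟨s, hs⟩ := Submodule.mem_span_singleton.1 g1
  have s0 : s ≠ 0 := by
    rintro rfl
    exact m 1 (by simp) (by rw [← hs, zero_smul])
  have ea : a 1 = s := by simp [a, ← hs]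
  have eg : g 1 = s • z := by simp [g, ← hs]
  have sp := abs_pos.2 s0
  simp only [n, ea, eg, ← smul_sub, hh]
  congr 1
  show min (N (z - y)) ρ = _
  have := f1.nn (mem_univ y) (z - y)
  rcases le_total (N (z - y)) ρ with e | e
  · rw [min_eq_left e, max_eq_right (by nlinarith)]; field_simp
  · have : 0 < N (z - y) := by linarith
    rw [min_eq_right e, max_eq_left (by nlinarith)]; field_simp

end Pool.Agent.H.MP_78211a_gt
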