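import Pool.Agent.H.MP_78211a_gt.I

set_option autoImplicit false

namespace Pool.Agent.H.MP_78211a_gt

open Set Filter Topology Real MeasureTheory

variable {F : E3 × E3 → ℝ} {d : PP → PP → ℝ} {L : ℝ} (A : (V × ℝ) ≃L[ℝ] E3)

theorem rep (a : AddCircle L) : ∃ t : ℝ, (t : AddCircle L) = a ∧ |t| = ‖a‖ := by
  obtain ⟨x, rfl⟩ := QuotientAddGroup.mk_surjective a
  refine ⟨x - round (L⁻¹ * x) * L, ?_, (AddCircle.norm_eq L).symm⟩
  rw [AddCircle.coe_sub, ← zsmul_eq_mul, AddCircle.coe_zsmul, AddCircle.coe_period, smul_zero,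
    sub_zero]

theorem dist_ac (hL : 0 < L) (p : AddCircle L) {s t : ℝ} (h : |s - t| ≤ L / 2) :
    dist (p + s) (p + t) = |s - t| := by
  rw [dist_eq_norm, add_sub_add_left_eq_sub, ← AddCircle.coe_sub,
    AddCircle.norm_coe_eq_abs_iff L hL.ne', abs_of_pos hL]
  exact h

def WW (x v : V) : Submodule ℝ E3 := Submodule.span ℝ {A (x, 1), A (v, 0)}

theorem WW_rk (x : V) {v : V} (hv : v ≠ 0) : Module.finrank ℝ (WW A x v) = 2 := by
  have := finrank_span_eq_card (li A x hv)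
  rwa [show range ![A (x, 1), A (v, 0)] = {A (x, 1), A (v, 0)} by simp [pair_comm],
    Fintype.card_fin] at this

theorem cc_le (x v : V) (s : ℝ) : (cc A (x + s • v)).submodule ≤ WW A x v := by
  rw [cc, mk_le, cv_add]
  exact Submodule.mem_span_pair.2 ⟨1, s, by simp⟩

theorem cc_le0 (x v : V) : (cc A x).submodule ≤ WW A x v := by simpa using cc_le A x v 0

theorem cc_inj {x y : V} (e : cc A x = cc A y) : x = y := by
  obtain ⟨a, ha⟩ := (Projectivization.mk_eq_mk_iff' ℝ _ _ _ _).1 e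
  rw [← map_smul] at ha
  have := A.injective ha
  simp only [Prod.smul_mk, smul_eq_mul, mul_one, Prod.mk.injEq] at this
  rw [← this.1, this.2, one_smul]

theorem El.lift (h : El F d L) (x : V) {v : V} (hv : v ≠ 0) {f : AddCircle L → PP}
    (h1 : ∀ a b, d (f a) (f b) = dist a b) (h2 : range f = {p | p.submodule ≤ WW A x v}) :
    ∃ (p : AddCircle L) (ψ : ℝ → ℝ) (δ : ℝ), 0 < δ ∧ ψ 0 = 0 ∧ (∀ s, f (p + ψ s) = cc A (x + s • v)) ∧
      ContinuousAt ψ 0 ∧ (∀ s ∈ Ioo (-δ) δ, |ψ s| < L / 4) ∧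
      (StrictMonoOn ψ (Ioo (-δ) δ) ∨ StrictAntiOn ψ (Ioo (-δ) δ)) := by
  have f1 := h.f1 A
  have : ∀ s : ℝ, ∃ a, f a = cc A (x + s • v) := fun s =>
    show _ ∈ range f by rw [h2]; exact cc_le A x v s
  choose φ hφ using this
  choose ψ e1 e2 using fun s => rep (φ s - φ 0)
  have e3 : ∀ s, φ 0 + ψ s = φ s := fun s => by rw [e1]; abel
  set G := fun t => ∫ s in (0:ℝ)..t, Ph A F (x + s • v, v)
  have cg : Continuous fun s : ℝ => Ph A F (x + s • v, v) := by
    simpa [continuousOn_univ] using f1.cg x v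
  have cG : Continuous G := continuous_iff_continuousAt.2 fun t =>
    (cg.integral_hasStrictDerivAt 0 t).hasDerivAt.continuousAt
  have le0 : ∀ s t, s ≤ t → dist (φ s) (φ t) ≤ G t - G s := fun s t st => by
    rw [← h1, hφ, hφ, intervalIntegral.integral_interval_sub_left (cg.intervalIntegrable _ _)
      (cg.intervalIntegrable _ _), ← f1.len_eq trivial trivial st]
    exact h.up A _ _
  have le : ∀ s t, dist (φ s) (φ t) ≤ dist (G s) (G t) := fun s t => by
    rcases le_total s t with st | st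
    · rw [dist_comm (G s)]; exact (le0 s t st).trans (le_abs_self _)
    · rw [dist_comm]; exact (le0 t s st).trans (le_abs_self _)
  obtain ⟨δ, d0, hd⟩ := Metric.continuous_iff.1 cG 0 (L / 4) (by linarith [h.L0])
  have sm : ∀ s ∈ Ioo (-δ) δ, |ψ s| < L / 4 := fun s hs => by
    rw [e2, ← dist_eq_norm]
    exact (le s 0).trans_lt (hd s (by rw [Real.dist_eq, sub_zero, abs_lt]; exact hs))
  have dd : ∀ s ∈ Ioo (-δ) δ, ∀ t ∈ Ioo (-δ) δ, dist (ψ s) (ψ t) = dist (φ s) (φ t) := by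
    intro s hs t ht
    rw [← e3 s, ← e3 t, dist_ac h.L0, Real.dist_eq]
    linarith [abs_sub (ψ s) (ψ t), sm s hs, sm t ht]
  have cψ : ContinuousOn ψ (Ioo (-δ) δ) := fun t ht => by
    have c := cG.continuousWithinAt (s := Ioo (-δ) δ) (x := t)
    rw [ContinuousWithinAt, tendsto_iff_dist_tendsto_zero] at c ⊢
    refine squeeze_zero' (Eventually.of_forall fun _ => dist_nonneg) ?_ c
    filter_upwards [self_mem_nhdsWithin] with s hs
    rw [dd s hs t ht]; exact le s t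
  refine ⟨φ 0, ψ, δ, d0, abs_eq_zero.1 (by rw [e2]; simp), fun s => by rw [e3, hφ],
    cψ.continuousAt (Ioo_mem_nhds (by linarith) d0), sm,
    cψ.strictMonoOn_of_injOn_Ioo (by linarith) fun s hs t ht e => ?_⟩
  have := dd s hs t ht
  rw [e, dist_self, eq_comm, ← h1, hφ, hφ, h.z0] at this
  exact smul_left_injective ℝ hv (add_left_cancel (cc_inj A this))

theorem El.ch (h : El F d L) : Ch univ (Ph A F) fun x y => d (cc A x) (cc A y) where
  toF1 := h.f1 A
  nd := fun _ _ _ _ => h.nd _ _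
  tr := fun _ _ _ _ _ _ => h.tr _ _ _
  up := fun x _ y _ => h.up A x y
  lo := lo_of (h.f1 A) (fun _ _ _ _ => h.nd _ _) fun y _ _ k0 k1 => h.lo A y k0 k1
  ad := fun x _ v hv => by
    obtain ⟨f, h1, h2⟩ := h.ln _ (WW_rk A x hv)
    obtain ⟨p, ψ, δ, d0, -, e, -, sm, mo⟩ := h.lift A x hv h1 h2
    refine ⟨δ, d0, fun a b c b1 b2 b3 b4 => ?_⟩
    have ha : a ∈ Ioo (-δ) δ := ⟨b1, by linarith⟩
    have hb : b ∈ Ioo (-δ) δ := ⟨by linarith, by linarith⟩
    have hc : c ∈ Ioo (-δ) δ := ⟨by linarith, b4⟩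
    have dd : ∀ s ∈ Ioo (-δ) δ, ∀ t ∈ Ioo (-δ) δ,
        d (cc A (x + s • v)) (cc A (x + t • v)) = |ψ s - ψ t| := fun s hs t ht => by
      rw [← e, ← e, h1, dist_ac h.L0]
      linarith [abs_sub (ψ s) (ψ t), sm s hs, sm t ht]
    simp only [dd a ha b hb, dd b hb c hc, dd a ha c hc]
    rcases mo with mo | mo
    · have := mo.monotoneOn ha hb b2
      have := mo.monotoneOn hb hc b3
      rw [abs_of_nonpos, abs_of_nonpos, abs_of_nonpos] <;> linarith
    · have := mo.antitoneOn ha hb b2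
      have := mo.antitoneOn hb hc b3
      rw [abs_of_nonneg, abs_of_nonneg, abs_of_nonneg] <;> linarith

theorem El.near (h : El F d L) {Y : E3} (hY : Y ≠ 0) (T : E3) {q : PP} (hq : Y ∈ q.submodule)
    {η : ℝ} (e0 : 0 < η) : ∀ᶠ ε in 𝓝 (0:ℝ), Y + ε • T ≠ 0 ∧ ∀ p : PP,
      Y + ε • T ∈ p.submodule → d q p ≤ η := by
  have c : ContinuousAt F (Y, 0) :=
    h.ct.continuousAt ((isOpen_compl_singleton.prod isOpen_univ).mem_nhds ⟨hY, trivial⟩)
  have z : F (Y, 0) = 0 := by simpa using h.hom Y hY 0 0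
  have : ∀ᶠ ε in 𝓝 (0:ℝ), ∀ t ∈ Icc (0:ℝ) 1, Y + t • ε • T ≠ 0 ∧ ‖F (Y + t • ε • T, ε • T)‖ < η := by
    refine isCompact_Icc.eventually_forall_of_forall_eventually fun t _ => ?_
    refine (ContinuousAt.eventually_ne (g := fun q : ℝ × ℝ => Y + q.2 • q.1 • T) (by fun_prop)
      (by simpa using hY)).and ?_
    refine ContinuousAt.eventually_lt (f := fun q : ℝ × ℝ => ‖F (Y + q.2 • q.1 • T, q.1 • T)‖)
      (g := fun _ => η) (ContinuousAt.norm (ContinuousAt.comp_of_eq c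
        (f := fun q : ℝ × ℝ => (Y + q.2 • q.1 • T, q.1 • T)) (by fun_prop) (by simp)))
      continuousAt_const (by simpa [z] using e0)
  filter_upwards [this] with ε hε
  refine ⟨by simpa using (hε 1 (by simp)).1, fun p hp => ?_⟩
  refine (h.up0 (fun t ht => (hε t ht).1) hq hp).trans ((le_abs_self _).trans ?_)
  have := intervalIntegral.norm_integral_le_of_norm_le_const (a := 0) (b := 1) (C := η)
    (f := fun t => F (Y + t • ε • T, ε • T)) fun t ht => (hε t (by
      rw [uIoc_of_le zero_le_one] at ht; exact Ioc_subset_Icc_self ht)).2.le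
  simpa using this

theorem El.tp (h : El F d L) {x v w : V} (hv : v ≠ 0) (z : D1 (Ph A F) (x, v) (0, w) = 0)
    (o q : PP) (ho : o.submodule ≤ WW A x v) (hq : q.submodule ≤ WW A x w) :
    d o (cc A x) ≤ d o q := by
  have ch := h.ch A
  obtain ⟨f, h1, h2⟩ := h.ln _ (WW_rk A x hv)
  obtain ⟨p, ψ, δ, d0, p0, e, cψ, sm, mo⟩ := h.lift A x hv h1 h2
  obtain ⟨a, rfl⟩ : o ∈ range f := by rw [h2]; exact ho
  obtain ⟨t, e1, e2⟩ := rep (a - p)
  have tl : |t| ≤ L / 2 := by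
    have := AddCircle.norm_le_half_period L (x := a - p) h.L0.ne'
    rwa [← e2, abs_of_pos h.L0] at this
  obtain rfl : a = p + t := by rw [e1]; abel
  have ex : cc A x = f (p + (0:ℝ)) := by simpa [p0] using (e 0).symm
  have dx : ∀ s : ℝ, |s| ≤ L / 2 → d (f (p + s)) (cc A x) = |s| := fun s hs => by
    rw [ex, h1, dist_ac h.L0 _ (by simpa), sub_zero]
  by_contra hn
  push Not at hn
  rw [dx t tl] at hn
  have nq := h.nd (f (p + t)) q
  have tp : 0 < |t| := by linarith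
  set η := (|t| - d (f (p + t)) q) / (4 * |t|)
  have he : η * (4 * |t|) = |t| - d (f (p + t)) q := div_mul_cancel₀ _ (by positivity)
  have η0 : 0 < η := div_pos (by linarith) (by positivity)
  have η1 : η < 1 := by nlinarith
  set t' := (1 - η) * t
  have at' : |t'| = (1 - η) * |t| := by rw [abs_mul, abs_of_pos (by linarith)]
  have tl' : |t'| < L / 2 := by nlinarith
  set o := f (p + t')
  have dq : d o q < |t'| := by
    have := h.tr o (f (p + t)) q
    rw [h1, dist_ac h.L0, show t' - t = -η * t by ring, abs_mul, abs_neg, abs_of_pos η0] at this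
    · nlinarith
    · rw [show t' - t = -η * t by ring, abs_mul, abs_neg, abs_of_pos η0]; nlinarith
  have t0 : t' ≠ 0 := abs_pos.1 (by nlinarith)
  obtain ⟨σ, s1, s2⟩ : ∃ σ : ℝ, |σ| = 1 ∧ ∀ s ∈ Ioo 0 δ, t' * ψ (s * σ) < 0 := by
    have z0 : (0:ℝ) ∈ Ioo (-δ) δ := ⟨by linarith, d0⟩
    have k : ∀ s ∈ Ioo 0 δ, s * 1 ∈ Ioo (-δ) δ ∧ s * -1 ∈ Ioo (-δ) δ ∧ 0 < s * 1 ∧ s * -1 < 0 :=
      fun s hs => ⟨⟨by linarith [hs.1], by linarith [hs.2]⟩,
        ⟨by linarith [hs.2], by linarith [hs.1]⟩, by linarith [hs.1], by linarith [hs.1]⟩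
    rcases mo with mo | mo <;> rcases lt_or_gt_of_ne t0 with b | b
    · exact ⟨1, by simp, fun s hs => mul_neg_of_neg_of_pos b
        (p0 ▸ mo z0 (k s hs).1 (k s hs).2.2.1)⟩
    · exact ⟨-1, by simp, fun s hs => mul_neg_of_pos_of_neg b
        (p0 ▸ mo (k s hs).2.1 z0 (k s hs).2.2.2)⟩
    · exact ⟨-1, by simp, fun s hs => mul_neg_of_neg_of_pos b
        (p0 ▸ mo (k s hs).2.1 z0 (k s hs).2.2.2)⟩
    · exact ⟨1, by simp, fun s hs => mul_neg_of_pos_of_neg b
        (p0 ▸ mo z0 (k s hs).1 (k s hs).2.2.1)⟩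
  have σ0 : σ ≠ 0 := abs_pos.1 (by rw [s1]; exact one_pos)
  set u := σ • v
  have hu : u ≠ 0 := smul_ne_zero σ0 hv
  have zu := ch.xi_sc trivial hv σ0 z
  obtain ⟨l, l1, l2⟩ := h.cb o _ tl'
  have ln : ∀ (r : PP) (X : E3), d o r ≤ |t'| → X ≠ 0 → X ∈ r.submodule → l X ≠ 0 := by
    intro r X a b c e
    refine l1 r a ?_
    rw [eq_mk b c, mk_le]; exact e
  set X := A (x, 1)
  have lX := ln _ X (dx t' tl'.le).le (cv_ne A x) (mem_mk _)
  have q0 : q.rep ∈ q.submodule := by rw [q.submodule_eq]; exact Submodule.mem_span_singleton_self _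
  have lq := ln q _ dq.le q.rep_nonzero q0
  set Y := (l X / l q.rep) • q.rep
  have Y0 : Y ≠ 0 := smul_ne_zero (div_ne_zero lX lq) q.rep_nonzero
  have Yq : Y ∈ q.submodule := Submodule.smul_mem _ _ q0
  have lY : l Y = l X := by simp [Y, lq]
  obtain ⟨α, β, eY⟩ := Submodule.mem_span_pair.1 (hq Yq)
  have ev : ∀ᶠ ε in 𝓝 (0:ℝ), 0 < 1 + ε * (l (A (u, 0)) / l X) :=
    ContinuousAt.eventually_lt (f := fun _ => 0) continuousAt_const (by fun_prop) (by simp)
  obtain ⟨ε, ⟨⟨b1, b2⟩, b3⟩, e0⟩ := ((((h.near Y0 (A (u, 0)) Yq (sub_pos.2 dq)).and ev).filter_mono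
    nhdsWithin_le_nhds).and (self_mem_nhdsWithin (s := Ioi 0))).exists
  set k := 1 + ε * (l (A (u, 0)) / l X)
  set Y' := Y + ε • A (u, 0)
  have lY' : l Y' = k * l X := by
    simp only [Y', k, map_add, map_smul, lY, smul_eq_mul]; field_simp
  have lb := ch.lb (ρ := fun y => d o (cc A y)) (x := x) (b := β • w + ε • u) trivial hu (by
    apply Eventually.frequently
    have : ∀ᶠ s in 𝓝 (0:ℝ), |ψ (s * σ)| < L / 2 - |t'| :=
      ContinuousAt.eventually_lt (f := fun s => |ψ (s * σ)|) (g := fun _ => L / 2 - |t'|)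
        (ContinuousAt.abs (ContinuousAt.comp_of_eq cψ (f := fun s => s * σ) (by fun_prop)
          (by simp))) continuousAt_const (by simpa [p0] using tl')
    filter_upwards [Ioo_mem_nhdsGT d0, this.filter_mono nhdsWithin_le_nhds] with s a b y _
    refine le_trans (le_of_eq ?_) (h.tr _ _ _)
    have c := s2 s a
    have c2 : |t' - ψ (s * σ)| = |t'| + |ψ (s * σ)| := by
      rcases mul_neg_iff.1 c with ⟨c1, c2⟩ | ⟨c1, c2⟩
      · rw [abs_of_pos c1, abs_of_neg c2, abs_of_pos] <;> linarith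
      · rw [abs_of_neg c1, abs_of_pos c2, abs_of_neg] <;> linarith
    rw [smul_smul, ← e, h.sy (cc A x), dx _ tl'.le, dx _ (by linarith [abs_nonneg t']), h1,
      dist_ac h.L0 _ (by linarith), c2]) (ch.xi_pos trivial hu zu β e0)
  have ev2 : ∀ᶠ τ in 𝓝 (0:ℝ), 0 < 1 - τ * α :=
    ContinuousAt.eventually_lt (f := fun _ => 0) continuousAt_const (by fun_prop) (by simp)
  obtain ⟨τ, ⟨a1, a2⟩, a3⟩ := ((lb.and (ev2.filter_mono nhdsWithin_le_nhds)).and
    self_mem_nhdsWithin).exists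
  have a4 : 0 < τ := a3
  have S0 : 0 < 1 - τ * α + τ * k := by positivity
  obtain ⟨-, r, m, dr⟩ := l2 (x := (l X)⁻¹ • X) (y := (k * l X)⁻¹ • Y')
    ⟨by simp [lX], cc A x, Submodule.smul_mem _ _ (mem_mk _), (dx t' tl'.le).le⟩
    ⟨by rw [map_smul, lY', smul_eq_mul, inv_mul_cancel₀ (mul_ne_zero b3.ne' lX)],
      Projectivization.mk ℝ _ b1, Submodule.smul_mem _ _ (mem_mk _),
      by linarith [b2 _ (mem_mk b1), h.tr o q (Projectivization.mk ℝ _ b1)]⟩
    (a := (1 - τ * α) / (1 - τ * α + τ * k)) (b := τ * k / (1 - τ * α + τ * k))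
    (by positivity) (by positivity) (by field_simp)
  have m2 := Submodule.smul_mem _ ((1 - τ * α + τ * k) * l X) m
  have : ((1 - τ * α + τ * k) * l X) • (((1 - τ * α) / (1 - τ * α + τ * k)) • (l X)⁻¹ • X +
      (τ * k / (1 - τ * α + τ * k)) • (k * l X)⁻¹ • Y') = A (x + τ • (β • w + ε • u), 1) := by
    have : A (β • w + ε • u, 0) = β • A (w, 0) + ε • A (u, 0) := by
      rw [← map_smul, ← map_smul, ← map_add]; simp
    rw [cv_add, this]
    simp only [Y', ← eY]
    match_scalars <;> field_simp <;> ring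
  rw [this] at m2
  rw [eq_mk (cv_ne A _) m2] at dr
  rw [dx t' tl'.le] at a1
  exact absurd dr (not_le.2 a1)

theorem El.fs (h : El F d L) : FS univ (Ph A F) where
  toF0 := (h.f1 A).toF0
  el := (h.ch A).el
  sy := fun x hx v hv w hw z => (h.ch A).mp hx hw (Eventually.of_forall fun s =>
    Eventually.of_forall fun t => h.sp _ _ (WW_rk A x hw) (WW_rk A x hv) _ (cc_le0 A x w)
      (cc_le0 A x v) (h.tp A hv z) _ _ (cc_le A x w s) (cc_le A x v t))

theorem El.euc (h : El F d L) : Euc (Ph A F) 0 := by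
  refine ((h.fs A).dich.resolve_right fun hf => ?_) 0 trivial
  obtain ⟨l, h1, h2⟩ := hf 0 trivial
  have l0 : l = 0 := ContinuousLinearMap.ext fun y => by
    by_contra hn
    have := (h1 ((-2 / l y) • y) trivial).1
    rw [sub_zero, map_smul, smul_eq_mul, div_mul_cancel₀ _ hn] at this
    linarith
  set v : V := (1, 0)
  have hv : v ≠ 0 := by simp [v]
  have c : ContinuousAt F (A (v, 0), A (0, 1)) :=
    h.ct.continuousAt ((isOpen_compl_singleton.prod isOpen_univ).mem_nhds ⟨by simp [hv], trivial⟩)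
  have p := (h.f1 A).pos 0 trivial v hv
  have ev : ∀ᶠ r in 𝓝 (0:ℝ), r ^ 2 * F (A (v, r), A (0, 1)) < Ph A F (0, v) :=
    ContinuousAt.eventually_lt (f := fun r : ℝ => r ^ 2 * F (A (v, r), A (0, 1)))
      (ContinuousAt.mul (by fun_prop) (ContinuousAt.comp_of_eq c
        (f := fun r : ℝ => (A (v, r), A (0, 1))) (by fun_prop) rfl)) continuousAt_const
      (by simpa using p)
  obtain ⟨r, a, b⟩ := ((ev.filter_mono nhdsWithin_le_nhds).and
    (self_mem_nhdsWithin (s := Ioi 0))).exists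
  have r0 : 0 < r := b
  have n : A (v, r) ≠ 0 := by simp [hv]
  have e := h.inv _ n r⁻¹ 1 ((-r ^ 2) • A (0, 1)) (inv_ne_zero r0.ne')
  rw [h.hom _ n, abs_neg, abs_of_pos (by positivity)] at e
  rw [← e, ← h2 l0 (r⁻¹ • v) trivial v] at a
  refine a.ne ?_
  simp only [Ph]
  rw [← map_smul, ← map_smul, ← map_smul, ← map_smul, ← map_add]
  congr 3
  · simp [r0.ne']
  · ext <;> simp <;> field_simp <;> ring

theorem ex_chart {X : E3} (hX : X ≠ 0) : ∃ A : (V × ℝ) ≃L[ℝ] E3, A (0, 1) = X := by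
  have key : ∀ Y Z : E3, (∀ a b c : ℝ, c • X + a • Y + b • Z = 0 → a = 0 ∧ b = 0 ∧ c = 0) →
      ∃ A : (V × ℝ) ≃L[ℝ] E3, A (0, 1) = X := fun Y Z hh => by
    let T : (V × ℝ) →ₗ[ℝ] E3 :=
      { toFun := fun q => q.2 • X + q.1.1 • Y + q.1.2 • Z
        map_add' := fun p q => by simp only [Prod.snd_add, Prod.fst_add]; module
        map_smul' := fun c q => by
          simp only [Prod.smul_snd, Prod.smul_fst, smul_eq_mul, RingHom.id_apply]; module }
    refine ⟨(T.linearEquivOfInjective ((injective_iff_map_eq_zero T).2 fun q hq => ?_)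
      (by simp)).toContinuousLinearEquiv, by simp [T]⟩
    obtain ⟨a, b, c⟩ := hh _ _ _ hq
    exact Prod.ext (Prod.ext a b) c
  obtain ⟨i, hi⟩ := Function.ne_iff.1 hX
  fin_cases i
  · refine key ![0, 1, 0] ![0, 0, 1] fun a b c e => ?_
    have e0 := congrFun e 0
    have e1 := congrFun e 1
    have e2 := congrFun e 2
    simp only [Pi.add_apply, Pi.smul_apply, smul_eq_mul] at e0 e1 e2
    simp_all
  · refine key ![1, 0, 0] ![0, 0, 1] fun a b c e => ?_
    have e0 := congrFun e 0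
    have e1 := congrFun e 1
    have e2 := congrFun e 2
    simp only [Pi.add_apply, Pi.smul_apply, smul_eq_mul] at e0 e1 e2
    simp_all
  · refine key ![1, 0, 0] ![0, 1, 0] fun a b c e => ?_
    have e0 := congrFun e 0
    have e1 := congrFun e 1
    have e2 := congrFun e 2
    simp only [Pi.add_apply, Pi.smul_apply, smul_eq_mul] at e0 e1 e2
    simp_all

theorem El.main (h : El F d L) (X : E3) (hX : X ≠ 0) :
    ∃ B : E3 →L[ℝ] E3 →L[ℝ] ℝ, ∀ U, F (X, U) ^ 2 = B U U := by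
  obtain ⟨A, rfl⟩ := ex_chart hX
  obtain ⟨B, hB⟩ := h.euc A
  set T : E3 →L[ℝ] V := (ContinuousLinearMap.fst ℝ V ℝ).comp A.symm.toContinuousLinearMap
  refine ⟨B.bilinearComp T T, fun U => ?_⟩
  rw [ContinuousLinearMap.bilinearComp_apply, ← hB]
  simp only [Ph]
  rw [← h.inv _ hX 1 (A.symm U).2 (A (T U, 0)) one_ne_zero, one_smul, one_smul, ← map_smul,
    ← map_add]
  congr 3
  rw [← A.symm_apply_eq]
  ext <;> simp [T]

end Pool.Agent.H.MP_78211a_gt
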